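import Pool.Agent.Run7.h375.SC.Forms

/-!
# The birational section conjecture: free quadratic steps on the conic
-/

set_option autoImplicit false

namespace Run7.h375.SC

open IntermediateField Module
open scoped Pointwise

variable {K Ω N : Type} [Field K] [Field Ω] [Algebra K Ω] [Field N] [Algebra K N] [Algebra Ω N]
  [IsScalarTower K Ω N]

/-- An automorphism which fixes the generators fixes the field. -/
theorem fix_adjoin {F : IntermediateField K N} (γ : Gal(N/F)) {S : Set N}
    (h : ∀ y ∈ S, γ y = y) (y : IntermediateField.adjoin K S) :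
    γ (algebraMap (IntermediateField.adjoin K S) N y) =
      algebraMap (IntermediateField.adjoin K S) N y := by
  obtain ⟨y, hy⟩ := y
  show γ y = y
  induction hy using IntermediateField.adjoin_induction with
  | mem x hx => exact h x hx
  | algebraMap x => exact γ.commutes (algebraMap K F x)
  | add x y _ _ h1 h2 => rw [map_add, h1, h2]
  | inv x _ h1 => rw [map_inv₀, h1]
  | mul x y _ _ h1 h2 => rw [map_mul, h1, h2]

/-- `N` is Galois over all fields over which it is algebraic. -/
theorem gal_of_le [CharZero K] [IsAlgClosed N] {F₁ F₂ : IntermediateField K N} (h : F₁ ≤ F₂)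
    (h1 : Algebra.IsAlgebraic F₁ N) : IsGalois F₂ N := by
  have h2 : Algebra.IsAlgebraic F₂ N := by
    refine ⟨fun z => ?_⟩
    obtain ⟨p, hp, hz⟩ := h1.isAlgebraic z
    refine ⟨p.map (IntermediateField.inclusion h).toRingHom, ?_, ?_⟩
    · rwa [Ne, Polynomial.map_eq_zero_iff (IntermediateField.inclusion h).toRingHom.injective]
    · rw [Polynomial.aeval_def, Polynomial.eval₂_map]
      exact hz
  have h3 : IsAlgClosure F₂ N := ⟨inferInstance, h2⟩
  have h4 : Normal F₂ N := IsAlgClosure.normal F₂ N
  have h5 : CharZero F₂ := charZero_of_injective_algebraMap (algebraMap K F₂).injective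
  exact ⟨⟩

/-- **The birational section conjecture and free quadratic steps on the conic.** -/
theorem birat_main [NumberField K] [IsAlgClosure K Ω] [IsAlgClosed N]
    (hN : ∀ y : N, y ∉ Set.range (algebraMap Ω N) → Algebra.IsAlgebraic K⟮y⟯ N)
    (ρ : K →+* ℝ) (m : ∀ F : IntermediateField K N, (Gal(Ω/K) → Gal(N/F)) → ℤ)
    (hm : ∀ F s, m F s ≠ 0) (hm' : ∀ F s t, SameGerm s t → m F s = m F t) :
    (∀ y : N, y ∉ Set.range (algebraMap Ω N) → ∀ L : IntermediateField K Ω,
      FiniteDimensional K L → SectionConjecture K⟮y⟯ N L) ↔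
    ∀ a b : N, a ∉ Set.range (algebraMap Ω N) → a * a + b * b = -1 →
      ∀ (s : Gal(Ω/K) → Gal(N/K⟮a, b⟯)) (E L : IntermediateField K Ω),
        IsFreeStep {2} (m K⟮a, b⟯ s) E L → GivenOrExtends E L s := by
  have hac : IsAlgClosed Ω := IsAlgClosure.isAlgClosed K
  have hnor : Normal K Ω := IsAlgClosure.normal K Ω
  have hgal : IsGalois K Ω := by
    have h1 : Algebra.IsAlgebraic K Ω := IsAlgClosure.isAlgebraic
    exact ⟨⟩
  have hchN : CharZero N := charZero_of_injective_algebraMap (algebraMap K N).injective
  obtain ⟨i, hi⟩ := IsAlgClosed.exists_eq_mul_self (-1 : Ω)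
  set j := algebraMap Ω N i with hj
  have hj2 : j * j = -1 := by rw [hj, ← map_mul, ← hi, map_neg, map_one]
  have hj0 : j ≠ 0 := by
    intro h
    rw [h, zero_mul] at hj2
    exact (neg_ne_zero.2 (one_ne_zero (α := N))) hj2.symm
  -- the quadratic statement for one conic
  have key : ∀ a b : N, a ∉ Set.range (algebraMap Ω N) → a * a + b * b = -1 →
      ((∀ L : IntermediateField K Ω, FiniteDimensional K L → SectionConjecture K⟮a, b⟯ N L) ↔
        ∀ (s : Gal(Ω/K) → Gal(N/K⟮a, b⟯)) (E L : IntermediateField K Ω),
          IsFreeStep {2} (m K⟮a, b⟯ s) E L → GivenOrExtends E L s) := by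
    intro a b ha hab
    have h1 : K⟮a⟯ ≤ K⟮a, b⟯ := IntermediateField.adjoin.mono _ _ _ (by simp)
    have h2 : IsGalois K⟮a, b⟯ N := gal_of_le h1 (hN a ha)
    obtain ⟨w, hw⟩ := IsAlgClosed.exists_eq_mul_self (a + b * j)
    have ha' : a ∈ K⟮a, b⟯ := IntermediateField.subset_adjoin _ _ (by simp)
    have hb' : b ∈ K⟮a, b⟯ := IntermediateField.subset_adjoin _ _ (by simp)
    exact real_main (F := K⟮a, b⟯) ρ i hi.symm ⟨a, ha'⟩ ⟨b, hb'⟩ (Subtype.ext hab) w hw.symm
      (m _) (hm _) (hm' _)
  constructor
  · intro h a b ha hab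
    rw [← key a b ha hab]
    have hy : a + b * j ∉ Set.range (algebraMap Ω N) := by
      rintro ⟨c, hc⟩
      have h1 : (a + b * j) * (a - b * j) = -1 := by linear_combination hab - b * b * hj2
      have h2 : a + b * j ≠ 0 := by
        intro h3
        rw [h3, zero_mul] at h1
        exact (neg_ne_zero.2 (one_ne_zero (α := N))) h1.symm
      have h3 : a - b * j = -(a + b * j)⁻¹ := by
        field_simp
        linear_combination h1
      apply ha
      refine ⟨(c - c⁻¹) / 2, ?_⟩
      rw [map_div₀, map_sub, map_inv₀, hc, map_ofNat]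
      have h4 : (a + b * j)⁻¹ = -(a - b * j) := by rw [h3, neg_neg]
      rw [h4]
      ring
    refine forms (F₁ := K⟮a + b * j⟯) (F₂ := K⟮a, b⟯) i ?_ ?_ (h _ hy)
    · intro γ hγ
      have hyf : γ (a + b * j) = a + b * j :=
        γ.commutes ⟨a + b * j, mem_adjoin_simple_self K _⟩
      have h1 : (a + b * j) * (a - b * j) = -1 := by linear_combination hab - b * b * hj2
      have h2 : a + b * j ≠ 0 := by
        intro h3
        rw [h3, zero_mul] at h1
        exact (neg_ne_zero.2 (one_ne_zero (α := N))) h1.symm
      have h3 : a - b * j = -(a + b * j)⁻¹ := by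
        field_simp
        linear_combination h1
      have h4 : γ (a - b * j) = a - b * j := by
        rw [h3, map_neg, map_inv₀, hyf]
      have ha1 : a = ((a + b * j) + (a - b * j)) / 2 := by ring
      have hb1 : b = ((a + b * j) - (a - b * j)) / (2 * j) := by field_simp; ring
      apply fix_adjoin
      rintro x (rfl | rfl)
      · have h5 := congrArg γ ha1
        rw [map_div₀, map_add, hyf, h4, map_ofNat] at h5
        rw [h5]
        exact ha1.symm
      · have h5 := congrArg γ hb1
        rw [map_div₀, map_sub, hyf, h4, map_mul, map_ofNat, hγ] at h5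
        rw [h5]
        exact hb1.symm
    · intro γ hγ
      apply fix_adjoin
      rintro x rfl
      have ha' : γ a = a := γ.commutes ⟨a, IntermediateField.subset_adjoin _ _ (by simp)⟩
      have hb' : γ b = b := γ.commutes ⟨b, IntermediateField.subset_adjoin _ _ (by simp)⟩
      rw [map_add, map_mul, ha', hb', hγ]
  · intro h y hy
    have hy0 : y ≠ 0 := by
      rintro rfl
      exact hy ⟨0, map_zero _⟩
    set a := (y - y⁻¹) / 2 with ha
    set b := (y + y⁻¹) / (2 * j) with hb
    have hyab : y = a + b * j := by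
      rw [ha, hb]
      field_simp
      ring
    have hab : a * a + b * b = -1 := by
      have h1 : b * j = (y + y⁻¹) / 2 := by
        rw [hb]
        field_simp
      have h2 : b * b = -((b * j) * (b * j)) := by linear_combination b * b * hj2
      rw [h2, h1, ha]
      field_simp
      ring
    have hao : a ∉ Set.range (algebraMap Ω N) := by
      rintro ⟨c, hc⟩
      obtain ⟨d, hd⟩ := IsAlgClosed.exists_eq_mul_self (c * c + 1)
      have h1 : y * y - 2 * a * y - 1 = 0 := by
        rw [ha]
        field_simp
        ring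
      have h2 : (y - algebraMap Ω N c - algebraMap Ω N d) *
          (y - algebraMap Ω N c + algebraMap Ω N d) = 0 := by
        have h3 := congrArg (algebraMap Ω N) hd
        rw [map_mul, map_add, map_mul, map_one] at h3
        rw [hc] at h3 ⊢
        linear_combination h1 + h3
      rcases mul_eq_zero.1 h2 with h3 | h3
      · exact hy ⟨c + d, by rw [map_add]; linear_combination -h3⟩
      · exact hy ⟨c - d, by rw [map_sub]; linear_combination -h3⟩
    refine forms (F₁ := K⟮a, b⟯) (F₂ := K⟮y⟯) i ?_ ?_ ((key a b hao hab).2 (h a b hao hab))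
    · intro γ hγ
      apply fix_adjoin
      rintro x rfl
      have ha' : γ a = a := γ.commutes ⟨a, IntermediateField.subset_adjoin _ _ (by simp)⟩
      have hb' : γ b = b := γ.commutes ⟨b, IntermediateField.subset_adjoin _ _ (by simp)⟩
      rw [hyab, map_add, map_mul, ha', hb', hγ]
    · intro γ hγ
      have hyf : γ y = y := γ.commutes ⟨y, mem_adjoin_simple_self K _⟩
      apply fix_adjoin
      rintro x (rfl | rfl)
      · rw [ha, map_div₀, map_sub, map_inv₀, hyf, map_ofNat]
      · rw [hb, map_div₀, map_add, map_inv₀, hyf, map_mul, map_ofNat, hγ]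

end Run7.h375.SC
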