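import Mathlib

/-!
# Sections over number fields, free steps: definitions
-/

set_option autoImplicit false

namespace Run7.h375.SC

open IntermediateField Module
open scoped Pointwise

section defs

variable {K Ω F N : Type} [Field K] [Field Ω] [Algebra K Ω] [Field F] [Field N] [Algebra F N]
  [Algebra Ω N]

/-- The restriction of `s` to `Gal(Ω/L)` is a continuous section of `Gal(N/F) → Gal(Ω/K)`. Only the
values of `s` on `Gal(Ω/L)` matter. -/
structure IsSection (L : IntermediateField K Ω) (s : Gal(Ω/K) → Gal(N/F)) : Prop where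
  continuous : ∀ y : N, ∃ M : IntermediateField K Ω, FiniteDimensional K M ∧
    ∀ a ∈ M.fixingSubgroup, s a y = y
  hom : ∀ a ∈ L.fixingSubgroup, ∀ b ∈ L.fixingSubgroup, s (a * b) = s a * s b
  lifts : ∀ a ∈ L.fixingSubgroup, ∀ c : Ω, s a (algebraMap Ω N c) = algebraMap Ω N (a c)

/-- `B` is a valuation ring of `N` over `Ω`, different from `N`. -/
def IsPlace (Ω : Type) {N : Type} [Field Ω] [Field N] [Algebra Ω N] (B : ValuationSubring N) :
    Prop :=
  B ≠ ⊤ ∧ ∀ c : Ω, algebraMap Ω N c ∈ B

/-- Over `L`, the values of the section `s` are in the decomposition group of the place `B`. -/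
def GivenBy (L : IntermediateField K Ω) (s : Gal(Ω/K) → Gal(N/F)) (B : ValuationSubring N) :
    Prop :=
  IsPlace Ω B ∧ ∀ a ∈ L.fixingSubgroup, s a • B = B

/-- The section `s` over `L` is rigid: over every finite extension `M` of `L`, only the identity of
the geometric group `Gal(N/FΩ)` commutes with the values of `s`, and `s` is given by at most one
place. -/
def IsRigid (L : IntermediateField K Ω) (s : Gal(Ω/K) → Gal(N/F)) : Prop :=
  ∀ M : IntermediateField K Ω, FiniteDimensional K M → L ≤ M →
    (∀ γ : Gal(N/F), (∀ c : Ω, γ (algebraMap Ω N c) = algebraMap Ω N c) →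
      (∀ a ∈ M.fixingSubgroup, γ * s a = s a * γ) → γ = 1) ∧
    ∀ B B' : ValuationSubring N, GivenBy M s B → GivenBy M s B' → B = B'

/-- All rigid sections over `L` are given by places. -/
def SectionConjecture (F N : Type) {K Ω : Type} [Field K] [Field Ω] [Algebra K Ω] [Field F]
    [Field N] [Algebra F N] [Algebra Ω N] (L : IntermediateField K Ω) : Prop :=
  ∀ s : Gal(Ω/K) → Gal(N/F), IsSection L s → IsRigid L s → ∃ B, GivenBy L s B

/-- `s` and `t` agree over some finite extension of `K`. -/
def SameGerm (s t : Gal(Ω/K) → Gal(N/F)) : Prop :=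
  ∃ M : IntermediateField K Ω, FiniteDimensional K M ∧ ∀ a ∈ M.fixingSubgroup, s a = t a

/-- `L / E` is finite and Galois, of a degree with the property `P`. -/
structure IsGaloisDegree (P : ℕ → Prop) (E L : IntermediateField K Ω) : Prop where
  finite : FiniteDimensional K L
  le : E ≤ L
  galois : ∀ σ ∈ E.fixingSubgroup, ∀ y ∈ L, σ y ∈ L
  degree : ∃ d : ℕ, P d ∧ finrank K L = d * finrank K E

/-- A free step: `L / E` is Galois of prime degree in `R`, unramified at all finite places, and
completely split at the places above `m`. -/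
structure IsFreeStep (R : Set ℕ) (m : ℤ) (E L : IntermediateField K Ω) : Prop where
  galois : IsGaloisDegree (fun r => r.Prime ∧ r ∈ R) E L
  unramified : ∀ A : ValuationSubring Ω, ∀ σ ∈ E.fixingSubgroup,
    σ • A = A → (∀ y ∈ A, σ y - y ∈ A.nonunits) → σ ∈ L.fixingSubgroup
  splits : ∀ A : ValuationSubring Ω, (m : Ω) ∈ A.nonunits →
    ∀ σ ∈ E.fixingSubgroup, σ • A = A → σ ∈ L.fixingSubgroup

/-- Every rigid section over `L` is given by a place or extends to a section over `E`; here
`s` is one section. -/
def GivenOrExtends (E L : IntermediateField K Ω) (s : Gal(Ω/K) → Gal(N/F)) : Prop :=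
  IsSection L s → IsRigid L s → (∃ B, GivenBy L s B) ∨
    ∃ t : Gal(Ω/K) → Gal(N/F), IsSection E t ∧ ∀ a ∈ L.fixingSubgroup, t a = s a

end defs

end Run7.h375.SC
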