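import Pool.Agent.Run7.h375.SC.Real

/-!
# Descent of places, and forms of a curve
-/

set_option autoImplicit false

namespace Run7.h375.SC

open IntermediateField Module
open scoped Pointwise

section descend

open Run7.h375.SH

variable {K Ω F N : Type} [Field K] [Field Ω] [Algebra K Ω] [Field F] [Field N] [Algebra K F]
  [Algebra F N] [Algebra K N] [Algebra Ω N] [IsScalarTower K F N] [IsScalarTower K Ω N]
  [IsGalois K Ω]

/-- A rigid section which is given by a place over a finite extension is given by it. -/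
theorem GivenBy.descend {L M : IntermediateField K Ω} [FiniteDimensional K M]
    {s : Gal(Ω/K) → Gal(N/F)} (hs : IsSection L s) (hr : IsRigid L s) (hLM : L ≤ M)
    {B : ValuationSubring N} (hB : GivenBy M s B) : GivenBy L s B := by
  have hLfd : FiniteDimensional K L := fd_of_le' hLM
  obtain ⟨M', h1, h2, h3⟩ := exists_normal M
  have hs' := section_iff.1 hs
  refine ⟨hB.1, fun g hg => ?_⟩
  refine (hr M' h2 (hLM.trans h1)).2 _ _ ⟨place_smul (K := K) (s g) hB.1, fun a ha => ?_⟩
    ⟨hB.1, fun a ha => hB.2 a (fixingSubgroup_le h1 ha)⟩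
  have h4 : g⁻¹ * a * g ∈ M'.fixingSubgroup := by
    have h5 := h3.conj_mem a ha g⁻¹
    rwa [inv_inv] at h5
  have h5 : s a = s g * s (g⁻¹ * a * g) * (s g)⁻¹ := by
    rw [← hs'.conj hg (fixingSubgroup_le (hLM.trans h1) h4)]
    congr 1
    group
  rw [h5, mul_smul, mul_smul, inv_smul_smul, hB.2 _ (fixingSubgroup_le h1 h4)]

end descend

section forms

open Run7.h375.SH

variable {K Ω N : Type} [Field K] [Field Ω] [Algebra K Ω] [Field N] [Algebra K N] [Algebra Ω N]
  [IsScalarTower K Ω N] [IsGalois K Ω]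

open Classical in
/-- The automorphism `γ` over `F₁` as an automorphism over `F₂`. -/
noncomputable def conv {F₁ : IntermediateField K N} (F₂ : IntermediateField K N)
    (γ : Gal(N/F₁)) : Gal(N/F₂) :=
  if h : ∀ y : F₂, γ (algebraMap F₂ N y) = algebraMap F₂ N y then
    { γ with commutes' := h } else 1

theorem conv_apply {F₁ F₂ : IntermediateField K N} {γ : Gal(N/F₁)}
    (h : ∀ y : F₂, γ (algebraMap F₂ N y) = algebraMap F₂ N y) (z : N) : conv F₂ γ z = γ z := by
  unfold conv
  rw [dif_pos h]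
  rfl

theorem smul_iff {F₁ F₂ : IntermediateField K N} {γ₁ : Gal(N/F₁)} {γ₂ : Gal(N/F₂)}
    (h : ∀ z, γ₁ z = γ₂ z) (B : ValuationSubring N) : γ₁ • B = B ↔ γ₂ • B = B := by
  have h1 : γ₁ • B = γ₂ • B := by
    ext z
    rw [ValuationSubring.mem_smul_pointwise_iff_exists,
      ValuationSubring.mem_smul_pointwise_iff_exists]
    constructor
    · rintro ⟨y, hy, rfl⟩
      exact ⟨y, hy, (h y).symm⟩
    · rintro ⟨y, hy, rfl⟩
      exact ⟨y, hy, h y⟩
  rw [h1]

/-- The section conjecture only depends on the form of the curve over `Ω`. -/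
theorem forms {F₁ F₂ : IntermediateField K N} (i : Ω)
    (h12 : ∀ γ : Gal(N/F₁), γ (algebraMap Ω N i) = algebraMap Ω N i →
      ∀ y : F₂, γ (algebraMap F₂ N y) = algebraMap F₂ N y)
    (h21 : ∀ γ : Gal(N/F₂), γ (algebraMap Ω N i) = algebraMap Ω N i →
      ∀ y : F₁, γ (algebraMap F₁ N y) = algebraMap F₁ N y)
    (h : ∀ L : IntermediateField K Ω, FiniteDimensional K L → SectionConjecture F₁ N L)
    (L : IntermediateField K Ω) (hL : FiniteDimensional K L) : SectionConjecture F₂ N L := by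
  intro s hs hr
  have hfd : FiniteDimensional K K⟮i⟯ := fd_adjoin i
  have hM : FiniteDimensional K (L ⊔ K⟮i⟯ : IntermediateField K Ω) := inferInstance
  set M : IntermediateField K Ω := L ⊔ K⟮i⟯ with hMdef
  have hLM : L ≤ M := le_sup_left
  have hi : ∀ a ∈ M.fixingSubgroup, a i = i := fun a ha =>
    (IntermediateField.mem_fixingSubgroup_iff _ _).1 ha i
      ((le_sup_right : K⟮i⟯ ≤ M) (mem_adjoin_simple_self K i))
  have hsi : ∀ a ∈ M.fixingSubgroup, s a (algebraMap Ω N i) = algebraMap Ω N i := fun a ha => by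
    rw [hs.lifts a (fixingSubgroup_le hLM ha), hi a ha]
  have hc : ∀ a ∈ M.fixingSubgroup, ∀ z, conv F₁ (s a) z = s a z := fun a ha z =>
    conv_apply (h21 (s a) (hsi a ha)) z
  obtain ⟨B, hB⟩ := h M hM (fun a => conv F₁ (s a)) (by
    refine ⟨fun y => ?_, fun a ha b hb => ?_, fun a ha c => ?_⟩
    · obtain ⟨M', h1, h2⟩ := hs.continuous y
      refine ⟨M' ⊔ M, inferInstance, fun a ha => ?_⟩
      rw [hc a (fixingSubgroup_le le_sup_right ha)]
      exact h2 a (fixingSubgroup_le le_sup_left ha)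
    · ext z
      rw [hc _ (mul_mem ha hb), hs.hom a (fixingSubgroup_le hLM ha) b (fixingSubgroup_le hLM hb),
        AlgEquiv.mul_apply, AlgEquiv.mul_apply, hc b hb, hc a ha]
    · rw [hc a ha]
      exact hs.lifts a (fixingSubgroup_le hLM ha) c) (by
    intro M' hM' hMM'
    obtain ⟨h1, h2⟩ := hr M' hM' (hLM.trans hMM')
    refine ⟨fun γ hγ hcomm => ?_, fun B B' h3 h4 => h2 B B' ?_ ?_⟩
    · have h5 : ∀ z, conv F₂ γ z = γ z := fun z => conv_apply (h12 γ (hγ i)) z
      have h6 := h1 (conv F₂ γ) (fun c => by rw [h5, hγ]) (fun a ha => by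
        ext z
        have h7 := congrArg (fun g : Gal(N/F₁) => g z) (hcomm a ha)
        have ha' := fixingSubgroup_le hMM' ha
        have h8 : γ (conv F₁ (s a) z) = conv F₁ (s a) (γ z) := h7
        rw [hc a ha', hc a ha'] at h8
        rw [AlgEquiv.mul_apply, AlgEquiv.mul_apply, h5, h5]
        exact h8)
      ext z
      rw [← h5 z, h6]
      rfl
    · exact ⟨h3.1, fun a ha => (smul_iff (hc a (fixingSubgroup_le hMM' ha)) B).1 (h3.2 a ha)⟩
    · exact ⟨h4.1, fun a ha => (smul_iff (hc a (fixingSubgroup_le hMM' ha)) B').1 (h4.2 a ha)⟩)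
  exact ⟨B, GivenBy.descend hs hr hLM
    ⟨hB.1, fun a ha => (smul_iff (hc a ha) B).1 (hB.2 a ha)⟩⟩

end forms

end Run7.h375.SC
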