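import Pool.Agent.Run7.h375.SH.Main

/-!
# Sections and steps of prime index: the abstract form
-/

set_option autoImplicit false
set_option linter.unusedSectionVars false

namespace Run7.h375.SC

open Subgroup Run7.h375.SH

variable {G Γ X : Type*} [Group G] [TopologicalSpace G] [Group Γ] [MulAction Γ X]

/-- `f` is a section over `H`, with the property `Q`. -/
structure Sec (Q : (G → Γ) → Prop) (p : Γ →* G) (H : Subgroup G) (f : G → Γ) : Prop where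
  cont : Q f
  mul : ∀ a ∈ H, ∀ b ∈ H, f (a * b) = f a * f b
  lift : ∀ a ∈ H, p (f a) = a

/-- `x` is fixed by `f` on `H`. -/
def Fix (H : Subgroup G) (f : G → Γ) (x : X) : Prop := ∀ a ∈ H, f a • x = x

/-- Rigid sections. -/
def Rig (p : Γ →* G) (P : Set X) (H : Subgroup G) (f : G → Γ) : Prop :=
  ∀ W : Subgroup G, W ≤ H → IsOpen (W : Set G) →
    (∀ γ : Γ, p γ = 1 → (∀ a ∈ W, γ * f a = f a * γ) → γ = 1) ∧
    ∀ x ∈ P, ∀ y ∈ P, Fix W f x → Fix W f y → x = y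

variable {Q : (G → Γ) → Prop} {p : Γ →* G} {P : Set X} {H H' : Subgroup G} {f t : G → Γ}

theorem Sec.mono (h : Sec Q p H f) (hle : H' ≤ H) : Sec Q p H' f :=
  ⟨h.cont, fun a ha b hb => h.mul a (hle ha) b (hle hb), fun a ha => h.lift a (hle ha)⟩

theorem Sec.one (h : Sec Q p H f) : f 1 = 1 := by
  have h1 := h.mul 1 H.one_mem 1 H.one_mem
  rw [mul_one] at h1
  exact (left_eq_mul.1 h1)

theorem Sec.inv (h : Sec Q p H f) {a : G} (ha : a ∈ H) : f a⁻¹ = (f a)⁻¹ := by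
  have h1 := h.mul a ha a⁻¹ (H.inv_mem ha)
  rw [mul_inv_cancel, h.one] at h1
  exact (inv_eq_of_mul_eq_one_right h1.symm).symm

theorem Sec.conj (h : Sec Q p H f) {a b : G} (ha : a ∈ H) (hb : b ∈ H) :
    f (a * b * a⁻¹) = f a * f b * (f a)⁻¹ := by
  rw [h.mul _ (H.mul_mem ha hb) _ (H.inv_mem ha), h.mul a ha b hb, h.inv ha]

theorem Fix.mono {x : X} (h : Fix H f x) (hle : H' ≤ H) : Fix H' f x := fun a ha => h a (hle ha)

/-- Rigidity only depends on the germ. -/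
theorem Rig.of_germ {L : Subgroup G} (hLo : IsOpen (L : Set G)) (hr : Rig p P L f)
    (he : ∀ a ∈ L, t a = f a) : Rig p P H t := by
  intro W hW hWo
  have h1 : IsOpen ((W ⊓ L : Subgroup G) : Set G) := by
    rw [coe_inf]
    exact hWo.inter hLo
  obtain ⟨h2, h3⟩ := hr (W ⊓ L) inf_le_right h1
  refine ⟨fun γ hγ hc => h2 γ hγ fun a ha => ?_, fun x hx y hy h4 h5 => h3 x hx y hy ?_ ?_⟩
  · rw [← he a ha.2]
    exact hc a ha.1
  · intro a ha
    rw [← he a ha.2]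
    exact h4 a ha.1
  · intro a ha
    rw [← he a ha.2]
    exact h5 a ha.1

/-- **Extension of sections by steps of prime index.** -/
theorem extend {L K : Subgroup G} {R : Set ℕ} (hn : ∀ h ∈ K, ∀ x ∈ L, h * x * h⁻¹ ∈ L) (hLK : L ≤ K)
    (hLo : IsOpen (L : Set G)) (hs : Sec Q p L f) (hr : Rig p P L f)
    (hno : ∀ x ∈ P, ¬ Fix L f x)
    (hst : ∀ H1 H2 : Subgroup G, L ≤ H2 → H2 ≤ H1 → H1 ≤ K →
      (∀ h ∈ H1, ∀ x ∈ H2, h * x * h⁻¹ ∈ H2) → (H2.relIndex H1).Prime → H2.relIndex H1 ∈ R →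
      ∀ t : G → Γ, (∀ a ∈ L, t a = f a) → Sec Q p H2 t → Rig p P H2 t → (∃ x ∈ P, Fix H2 t x) ∨
        ∃ t' : G → Γ, Sec Q p H1 t' ∧ ∀ a ∈ H2, t' a = t a) :
    ∀ k : ℕ, k ≠ 0 → (∀ r : ℕ, r.Prime → r ∣ k → r ∈ R) →
      ∀ a ∈ K, (∀ j : ℤ, a ^ j ∈ L ↔ (k : ℤ) ∣ j) →
      ∃ t : G → Γ, Sec Q p (L ⊔ zpowers a) t ∧ ∀ b ∈ L, t b = f b := by
  intro k
  induction k using Nat.strong_induction_on with
  | _ k ih =>
    intro hk0 hkR a ha hk
    by_cases hk1 : k = 1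
    · subst hk1
      have haL : a ∈ L := by
        have h1 := (hk 1).2 (by simp)
        rwa [zpow_one] at h1
      have h2 : L ⊔ zpowers a = L := by
        rw [sup_eq_left, zpowers_le]
        exact haL
      exact ⟨f, by rw [h2]; exact hs, fun b _ => rfl⟩
    have hr' := Nat.minFac_prime hk1
    set r := k.minFac with hrdef
    obtain ⟨k', hk'⟩ := Nat.minFac_dvd k
    rw [← hrdef] at hk'
    have hk'0 : k' ≠ 0 := by
      rintro rfl
      rw [mul_zero] at hk'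
      exact hk0 hk'
    have hk'k : k' < k := by
      conv_rhs => rw [hk']
      exact lt_mul_of_one_lt_left (Nat.pos_of_ne_zero hk'0) hr'.one_lt
    obtain ⟨hnorm, hidx⟩ := step_index hn ha hr' (Nat.minFac_dvd k) hk
    set H1 := L ⊔ zpowers a with hH1
    set H2 := L ⊔ zpowers (a ^ r) with hH2
    have hL2 : L ≤ H2 := le_sup_left
    have h21 : H2 ≤ H1 := by
      rw [hH2, sup_le_iff, zpowers_le]
      exact ⟨le_sup_left, H1.pow_mem (mem_sup_right (mem_zpowers a)) r⟩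
    have h1H : H1 ≤ K := by
      rw [hH1, sup_le_iff, zpowers_le]
      exact ⟨hLK, ha⟩
    have har : a ^ r ∈ K := K.pow_mem ha r
    obtain ⟨t, ht1, ht2⟩ := ih k' hk'k hk'0 (fun q hq hqk => hkR q hq (by
      rw [hk']
      exact hqk.mul_left r)) (a ^ r) har (fun j => by
      have h2 : (a ^ r) ^ j = a ^ ((r : ℤ) * j) := by rw [zpow_mul, zpow_natCast]
      rw [h2, hk, hk']
      push_cast
      exact mul_dvd_mul_iff_left (by exact_mod_cast hr'.ne_zero))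
    rcases hst H1 H2 hL2 h21 h1H hnorm (by rw [hidx]; exact hr')
      (by rw [hidx]; exact hkR r hr' (Nat.minFac_dvd k)) t ht2 ht1
      (hr.of_germ hLo ht2) with ⟨x, hx, hfx⟩ | ⟨t', ht'1, ht'2⟩
    · exact absurd (fun b hb => by rw [← ht2 b hb]; exact hfx b (hL2 hb)) (hno x hx)
    · exact ⟨t', ht'1, fun b hb => by rw [ht'2 b (hL2 hb), ht2 b hb]⟩

/-- The subgroup generated by `N` and the elements whose order modulo `N` has all its prime factors
in `R`. -/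
def gen (R : Set ℕ) (N G₀ : Subgroup G) : Subgroup G :=
  closure {h | h ∈ G₀ ∧ ∃ k : ℕ, k ≠ 0 ∧ (∀ r : ℕ, r.Prime → r ∣ k → r ∈ R) ∧ h ^ k ∈ N}

theorem gen_le {R : Set ℕ} {N G₀ : Subgroup G} : gen R N G₀ ≤ G₀ := by
  unfold gen
  rw [closure_le]
  exact fun h hh => hh.1

theorem le_gen {R : Set ℕ} {N G₀ : Subgroup G} (hN : N ≤ G₀) : N ≤ gen R N G₀ := fun h hh =>
  subset_closure ⟨hN hh, 1, one_ne_zero, fun r hr h1 => absurd (Nat.dvd_one.1 h1) hr.one_lt.ne', by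
    rwa [pow_one]⟩

theorem gen_conj {R : Set ℕ} {N G₀ : Subgroup G} (hNn : N.Normal) {g h : G} (hg : g ∈ G₀)
    (hh : h ∈ gen R N G₀) : g * h * g⁻¹ ∈ gen R N G₀ := by
  have h1 : gen R N G₀ ≤ (gen R N G₀).comap (MulAut.conj g).toMonoidHom := by
    conv_lhs => unfold gen
    rw [closure_le]
    rintro x ⟨hx, k, hk0, hkR, hxk⟩
    refine subset_closure ⟨G₀.mul_mem (G₀.mul_mem hg hx) (G₀.inv_mem hg), k, hk0, hkR, ?_⟩
    show (g * x * g⁻¹) ^ k ∈ N
    rw [conj_pow]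
    exact hNn.conj_mem _ hxk g
  exact h1 hh

/-- The index is prime to `R`. -/
theorem gen_index {R : Set ℕ} {N G₀ : Subgroup G} (hNn : N.Normal) (hN : N ≤ G₀)
    (hN0 : N.index ≠ 0) {r : ℕ} (hr : r.Prime) (hrR : r ∈ R) : ¬ r ∣ (gen R N G₀).relIndex G₀ := by
  intro hdvd
  have hnorm : ((gen R N G₀).subgroupOf G₀).Normal := by
    refine ⟨fun y hy h => ?_⟩
    rw [mem_subgroupOf] at hy ⊢
    exact gen_conj hNn h.2 hy
  have h0 : (gen R N G₀).index ≠ 0 := by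
    intro h
    have h1 := index_dvd_of_le (le_gen (R := R) hN)
    rw [h] at h1
    exact hN0 (Nat.eq_zero_of_zero_dvd h1)
  have hrel : (gen R N G₀).relIndex G₀ ≠ 0 := by
    intro h
    have h1 := relIndex_mul_index (gen_le (R := R) (N := N) (G₀ := G₀))
    rw [h, zero_mul] at h1
    exact h0 h1.symm
  have hfin : Finite (G₀ ⧸ (gen R N G₀).subgroupOf G₀) := by
    have : ((gen R N G₀).subgroupOf G₀).FiniteIndex := ⟨hrel⟩
    infer_instance
  have hrf : Fact r.Prime := ⟨hr⟩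
  have hcard : r ∣ Nat.card (G₀ ⧸ (gen R N G₀).subgroupOf G₀) := hdvd
  obtain ⟨q, hq⟩ := exists_prime_orderOf_dvd_card' r hcard
  obtain ⟨⟨x, hx⟩, rfl⟩ := QuotientGroup.mk_surjective q
  have hmem : ∀ j : ℕ, x ^ j ∈ gen R N G₀ ↔
      (QuotientGroup.mk (⟨x, hx⟩ : G₀) : G₀ ⧸ (gen R N G₀).subgroupOf G₀) ^ j = 1 := by
    intro j
    have h1 : (QuotientGroup.mk (⟨x, hx⟩ : G₀) : G₀ ⧸ (gen R N G₀).subgroupOf G₀) ^ j =
      QuotientGroup.mk ((⟨x, hx⟩ : G₀) ^ j) := rfl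
    rw [h1, QuotientGroup.eq_one_iff, mem_subgroupOf]
    push_cast
    exact Iff.rfl
  -- the order of `x` modulo `N`
  obtain ⟨n, hn0, hn⟩ : ∃ n : ℕ, n ≠ 0 ∧ x ^ n ∈ N := by
    have : N.FiniteIndex := ⟨hN0⟩
    refine ⟨N.index, hN0, ?_⟩
    exact N.pow_index_mem x
  obtain ⟨a, b, hb, hab⟩ := Nat.exists_eq_pow_mul_and_not_dvd hn0 r hr.one_lt.ne'
  have h1 : x ^ b ∈ gen R N G₀ := by
    refine subset_closure ⟨G₀.pow_mem hx b, r ^ a, pow_ne_zero _ hr.ne_zero, fun r' hr' h => ?_, ?_⟩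
    · rw [(Nat.prime_dvd_prime_iff_eq hr' hr).1 (hr'.dvd_of_dvd_pow h)]
      exact hrR
    · rw [← pow_mul, mul_comm, ← hab]
      exact hn
  have h2 := orderOf_dvd_of_pow_eq_one ((hmem b).1 h1)
  rw [hq] at h2
  exact hb h2

/-- **The main theorem, abstract form.** -/
theorem main' {N K U V G₀ : Subgroup G} {R : Set ℕ}
    (hNn : N.Normal) (hNo : IsOpen (N : Set G)) (hN0 : N.index ≠ 0) (hKo : IsOpen (K : Set G))
    (hK0 : K.index ≠ 0) (hcov : ∀ g ∈ G₀, ∃ a ∈ K, ∃ b ∈ N, g = a * b)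
    (hNU : N ≤ U) (hNG : N ≤ G₀) (hUo : IsOpen (U : Set G)) (hVn : V.Normal)
    (hVo : IsOpen (V : Set G)) (hVN : V ≤ N ⊓ K)
    (hst : ∀ H1 H2 : Subgroup G, N ⊓ K ≤ H2 → H2 ≤ H1 → H1 ≤ K →
      (∀ h ∈ H1, ∀ x ∈ H2, h * x * h⁻¹ ∈ H2) → (H2.relIndex H1).Prime → H2.relIndex H1 ∈ R →
      ∀ t : G → Γ, (∀ a ∈ N ⊓ K, t a = f a) → Sec Q p H2 t → Rig p P H2 t →
        (∃ x ∈ P, Fix H2 t x) ∨
        ∃ t' : G → Γ, Sec Q p H1 t' ∧ ∀ a ∈ H2, t' a = t a)
    (h0 : ∀ t : G → Γ, Sec Q p (gen R N G₀) t → Rig p P (gen R N G₀) t →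
      ∃ x ∈ P, Fix (gen R N G₀) t x)
    (hP : ∀ γ : Γ, ∀ x ∈ P, γ • x ∈ P) (hQ : ∀ t : G → Γ, (∀ a ∈ U, t a = f a) → Q t)
    (hs : Sec Q p U f) (hr : Rig p P U f) : ∃ x ∈ P, Fix U f x := by
  classical
  by_contra hcon
  push Not at hcon
  have hVU : V ≤ U := (hVN.trans inf_le_left).trans hNU
  have hLU : N ⊓ K ≤ U := inf_le_left.trans hNU
  -- nothing is fixed by an open subgroup
  have hV : ∀ x ∈ P, ¬ Fix V f x := by
    intro x hx hfx
    refine hcon x hx fun g hg => ?_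
    refine (hr V hVU hVo).2 _ (hP _ x hx) x hx (fun a ha => ?_) hfx
    have h1 : g⁻¹ * a * g ∈ V := by
      have h2 := hVn.conj_mem a ha g⁻¹
      rwa [inv_inv] at h2
    have h3 : f a = f g * f (g⁻¹ * a * g) * (f g)⁻¹ := by
      rw [← hs.conj hg (hVU h1)]
      congr 1
      group
    rw [h3, mul_smul, mul_smul, inv_smul_smul, hfx _ h1]
  have hLo : IsOpen ((N ⊓ K : Subgroup G) : Set G) := by
    rw [coe_inf]
    exact hNo.inter hKo
  have hL0 : (N ⊓ K).index ≠ 0 := index_inf_ne_zero hN0 hK0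
  have hrel : ∀ {P Q : Subgroup G}, P ≤ Q → P.index ≠ 0 → P.relIndex Q ≠ 0 := by
    intro P Q hPQ hP h
    have h1 := relIndex_mul_index hPQ
    rw [h, zero_mul] at h1
    exact hP h1.symm
  have hLn : ∀ h ∈ K, ∀ x ∈ N ⊓ K, h * x * h⁻¹ ∈ N ⊓ K := fun h hh x hx =>
    ⟨hNn.conj_mem x hx.1 h, K.mul_mem (K.mul_mem hh hx.2) (K.inv_mem hh)⟩
  -- the stabilizer of the germ
  let D : Subgroup G :=
    { carrier := {g | ∃ γ : Γ, p γ = g ∧ ∀ b ∈ V, γ * f b * γ⁻¹ = f (g * b * g⁻¹)}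
      one_mem' := ⟨1, map_one p, fun b _ => by simp⟩
      mul_mem' := by
        rintro g g' ⟨γ, h1, h2⟩ ⟨γ', h1', h2'⟩
        refine ⟨γ * γ', by rw [map_mul, h1, h1'], fun c hc => ?_⟩
        calc γ * γ' * f c * (γ * γ')⁻¹ = γ * (γ' * f c * γ'⁻¹) * γ⁻¹ := by group
          _ = f (g * (g' * c * g'⁻¹) * g⁻¹) := by rw [h2' c hc, h2 _ (hVn.conj_mem c hc g')]
          _ = _ := by
            congr 1
            group
      inv_mem' := by
        rintro g ⟨γ, h1, h2⟩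
        refine ⟨γ⁻¹, by rw [map_inv, h1], fun c hc => ?_⟩
        have h3 : g⁻¹ * c * g ∈ V := by
          have h4 := hVn.conj_mem c hc g⁻¹
          rwa [inv_inv] at h4
        have h4 := h2 _ h3
        have h5 : g * (g⁻¹ * c * g) * g⁻¹ = c := by group
        rw [h5] at h4
        rw [← h4, inv_inv]
        group }
  have hDU : U ≤ D := fun a ha => ⟨f a, hs.lift a ha, fun b hb => (hs.conj ha (hVU hb)).symm⟩
  -- the elements of `K` whose order is a product of primes in `R`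
  have hK : ∀ a ∈ K, (∃ k : ℕ, k ≠ 0 ∧ (∀ r : ℕ, r.Prime → r ∣ k → r ∈ R) ∧ a ^ k ∈ N) →
      a ∈ D := by
    rintro a ha ⟨k, hk0, hkR, hak⟩
    have hN' : ((N ⊓ K).subgroupOf K).Normal := by
      refine ⟨fun y hy h => ?_⟩
      rw [mem_subgroupOf] at hy ⊢
      exact hLn h h.2 y hy
    have hfin : Finite (K ⧸ (N ⊓ K).subgroupOf K) := by
      have : ((N ⊓ K).subgroupOf K).FiniteIndex := ⟨hrel inf_le_right hL0⟩
      infer_instance
    let q : K ⧸ (N ⊓ K).subgroupOf K := QuotientGroup.mk ⟨a, ha⟩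
    have hqj : ∀ j : ℤ, a ^ j ∈ N ⊓ K ↔ ((orderOf q : ℕ) : ℤ) ∣ j := by
      intro j
      rw [orderOf_dvd_iff_zpow_eq_one]
      have h1 : q ^ j = QuotientGroup.mk ((⟨a, ha⟩ : K) ^ j) := rfl
      rw [h1, QuotientGroup.eq_one_iff, mem_subgroupOf]
      push_cast
      exact Iff.rfl
    have hqk : orderOf q ∣ k := by
      have h1 := (hqj k).1 (by
        rw [zpow_natCast]
        exact ⟨hak, K.pow_mem ha k⟩)
      exact_mod_cast h1
    obtain ⟨t, ht1, ht2⟩ := extend hLn inf_le_right hLo (hs.mono hLU)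
      (hr.of_germ (H := N ⊓ K) hUo fun _ _ => rfl)
      (fun x hx h => hV x hx (h.mono hVN)) hst (orderOf q) (orderOf_pos q).ne'
      (fun r hr' hd => hkR r hr' (hd.trans hqk)) a ha hqj
    have haH : a ∈ (N ⊓ K) ⊔ zpowers a := mem_sup_right (mem_zpowers a)
    refine ⟨t a, ht1.lift a haH, fun b hb => ?_⟩
    rw [← ht2 b (hVN hb), ← ht1.conj haH (mem_sup_left (hVN hb)),
      ht2 _ (hLn a ha b (hVN hb))]
  have hD : gen R N G₀ ≤ D := by
    unfold gen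
    rw [closure_le]
    rintro g ⟨hg, k, hk0, hkR, hgk⟩
    obtain ⟨a, ha, b, hb, rfl⟩ := hcov g hg
    refine D.mul_mem (hK a ha ⟨k, hk0, hkR, ?_⟩) (hDU (hNU hb))
    have h1 : (QuotientGroup.mk (a * b) : G ⧸ N) ^ k = 1 := (QuotientGroup.eq_one_iff _).2 hgk
    have h2 : (QuotientGroup.mk (a * b) : G ⧸ N) = QuotientGroup.mk a := by
      rw [QuotientGroup.eq]
      have h3 := hNn.conj_mem _ (N.inv_mem hb) (a * b)⁻¹
      have h4 : (a * b)⁻¹ * a = b⁻¹ := by group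
      rw [h4]
      exact N.inv_mem hb
    rw [h2] at h1
    exact (QuotientGroup.eq_one_iff _).1 h1
  have huniq : ∀ (g : G) (γ γ' : Γ), p γ = g → p γ' = g →
      (∀ b ∈ V, γ * f b * γ⁻¹ = f (g * b * g⁻¹)) → (∀ b ∈ V, γ' * f b * γ'⁻¹ = f (g * b * g⁻¹)) →
      γ = γ' := by
    intro g γ γ' h1 h2 h3 h4
    have h5 := (hr V hVU hVo).1 (γ'⁻¹ * γ) (by rw [map_mul, map_inv, h1, h2, inv_mul_cancel])
      (fun b hb => by
        have h6 : γ * f b * γ⁻¹ = γ' * f b * γ'⁻¹ := by rw [h3 b hb, h4 b hb]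
        have h7 : γ * f b = γ' * f b * γ'⁻¹ * γ := by
          rw [← h6]
          group
        calc γ'⁻¹ * γ * f b = γ'⁻¹ * (γ * f b) := by group
          _ = f b * (γ'⁻¹ * γ) := by
            rw [h7]
            group)
    exact (inv_mul_eq_one.1 h5).symm
  let t : G → Γ := fun g => if h : g ∈ D then h.choose else 1
  have ht : ∀ g ∈ D, p (t g) = g ∧ ∀ b ∈ V, t g * f b * (t g)⁻¹ = f (g * b * g⁻¹) := by
    intro g hg
    have h1 : t g = Exists.choose hg := dif_pos hg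
    rw [h1]
    exact Exists.choose_spec hg
  have hmul : ∀ a ∈ D, ∀ b ∈ D, t (a * b) = t a * t b := by
    intro a ha b hb
    refine huniq (a * b) _ _ (ht _ (D.mul_mem ha hb)).1 (by rw [map_mul, (ht a ha).1, (ht b hb).1])
      (ht _ (D.mul_mem ha hb)).2 fun c hc => ?_
    calc t a * t b * f c * (t a * t b)⁻¹ = t a * (t b * f c * (t b)⁻¹) * (t a)⁻¹ := by group
      _ = f (a * (b * c * b⁻¹) * a⁻¹) := by
        rw [(ht b hb).2 c hc, (ht a ha).2 _ (hVn.conj_mem c hc b)]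
      _ = _ := by
        congr 1
        group
  have htf : ∀ a ∈ U, t a = f a := fun a ha =>
    huniq a _ _ (ht a (hDU ha)).1 (hs.lift a ha) (ht a (hDU ha)).2
      fun b hb => (hs.conj ha (hVU hb)).symm
  obtain ⟨x, hx, hfx⟩ := h0 t ⟨hQ t htf, fun a ha b hb => hmul a (hD ha) b (hD hb),
    fun a ha => (ht a (hD ha)).1⟩ (hr.of_germ hUo htf)
  refine hV x hx fun a ha => ?_
  rw [← htf a (hVU ha)]
  exact hfx a (le_gen hNG (hVN ha).1)

end Run7.h375.SC
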