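import Pool.Agent.Run7.h375.SC.Thm

/-!
# Involutions which do not lift
-/

set_option autoImplicit false

namespace Run7.h375.SC

open IntermediateField Module
open scoped Pointwise

section

variable {K Ω F N : Type} [Field K] [Field Ω] [Algebra K Ω] [Field F] [Field N] [Algebra F N]
  [Algebra Ω N]

/-- The values of a section at involutions are involutions. -/
theorem lift_involution {L : IntermediateField K Ω} {s : Gal(Ω/K) → Gal(N/F)}
    (hs : IsSection L s) {c : Gal(Ω/K)} (hcL : c ∈ L.fixingSubgroup) (hc2 : c * c = 1) :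
    s c * s c = 1 := by
  have h1 : s 1 = 1 := by
    have h2 := hs.hom 1 (one_mem _) 1 (one_mem _)
    rw [mul_one] at h2
    exact left_eq_mul.1 h2
  rw [← hs.hom c hcL c hcL, hc2, h1]

end

open Run7.h375.SH in
/-- **Involutions which do not lift: quadratic free steps.** -/
theorem inv_main {K Ω F N : Type} [Field K] [NumberField K] [Field Ω] [Algebra K Ω]
    [IsAlgClosure K Ω] [Field F] [Field N] [Algebra K F] [Algebra F N] [IsGalois F N]
    [Algebra K N] [Algebra Ω N] [IsScalarTower K F N] [IsScalarTower K Ω N]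
    (c : Gal(Ω/K)) (hc2 : c * c = 1)
    (hc : ∀ γ : Gal(N/F), (∀ y : Ω, γ (algebraMap Ω N y) = algebraMap Ω N (c y)) → γ * γ ≠ 1)
    (m : (Gal(Ω/K) → Gal(N/F)) → ℤ) (hm : ∀ s, m s ≠ 0)
    (hm' : ∀ s t, SameGerm s t → m s = m t) :
    (∀ L : IntermediateField K Ω, FiniteDimensional K L → SectionConjecture F N L) ↔
      ∀ (s : Gal(Ω/K) → Gal(N/F)) (E L : IntermediateField K Ω),
        IsFreeStep {2} (m s) E L → GivenOrExtends E L s := by
  have hnor : Normal K Ω := IsAlgClosure.normal K Ω
  have hgal : IsGalois K Ω := by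
    have h1 : Algebra.IsAlgebraic K Ω := IsAlgClosure.isAlgebraic
    exact ⟨⟩
  rw [nf_main (⊥ : IntermediateField K Ω) {2} m hm hm']
  constructor
  · rintro ⟨-, h⟩ s E L hf
    exact h s E L bot_le hf
  · intro h
    refine ⟨fun K' hK' s hs _ => ?_, fun s E L _ hf => h s E L hf⟩
    exfalso
    -- the degree of `K'` is odd
    have hfd := hK'.finite
    obtain ⟨d, hd, hdeg⟩ := hK'.degree
    have hodd : ¬ 2 ∣ d := hd 2 Nat.prime_two rfl
    have hidx : K'.fixingSubgroup.index = d := by
      rw [← finrank_eq_fixingSubgroup_index, hdeg, IntermediateField.finrank_bot, mul_one]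
    have hn : K'.fixingSubgroup.Normal := by
      refine ⟨fun x hx g => ?_⟩
      rw [IntermediateField.mem_fixingSubgroup_iff] at hx ⊢
      intro y hy
      have hg : g⁻¹ y ∈ K' := hK'.galois g⁻¹ (by
        rw [IntermediateField.fixingSubgroup_bot]
        exact Subgroup.mem_top _) y hy
      show g (x (g⁻¹ y)) = y
      rw [hx _ hg, ← AlgEquiv.mul_apply, mul_inv_cancel, AlgEquiv.one_apply]
    obtain ⟨j, hj⟩ := Nat.odd_iff.2 (Nat.two_dvd_ne_zero.1 hodd)
    have hfi : K'.fixingSubgroup.FiniteIndex := ⟨index_ne K'⟩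
    have h1 := K'.fixingSubgroup.pow_index_mem c
    rw [hidx, hj, pow_succ, pow_mul, pow_two, hc2, one_pow, one_mul] at h1
    exact hc (s c) (hs.lifts c h1) (lift_involution hs h1 hc2)

end Run7.h375.SC
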