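import Pool.Agent.Run7.h375.SH.Fld

/-!
# The base change over number fields
-/

set_option autoImplicit false

namespace Run7.h375.SC

open Polynomial IntermediateField Run7.h375.SH
open scoped Pointwise

section nf

variable (Q : Type*) {Ω : Type*} [Field Q] [IsFractionRing ℤ Q] [Field Ω] [Algebra Q Ω]
  [IsGalois Q Ω]

set_option linter.unusedSectionVars false

include Q in
theorem intCast_inj {a b : ℤ} (h : (a : Ω) = (b : Ω)) : a = b := by
  have h1 : algebraMap Q Ω (algebraMap ℤ Q a) = algebraMap Q Ω (algebraMap ℤ Q b) := by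
    rw [eq_intCast, eq_intCast, map_intCast, map_intCast]
    exact h
  exact IsFractionRing.injective ℤ Q ((algebraMap Q Ω).injective h1)

include Q in
theorem intCast_ne {a : ℤ} (h : a ≠ 0) : (a : Ω) ≠ 0 := by
  intro h1
  apply h
  apply intCast_inj Q (Ω := Ω)
  rw [h1, Int.cast_zero]

theorem int_mem' (A : ValuationSubring Ω) (a : ℤ) : (a : Ω) ∈ A := by
  exact intCast_mem A a

theorem dvd_of_nonunit' {A : ValuationSubring Ω} {q f : ℤ} (hq : Prime q)
    (h1 : (q : Ω) ∈ A.nonunits) (h2 : (f : Ω) ∈ A.nonunits) : q ∣ f := by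
  by_contra h
  obtain ⟨a, b, hab⟩ := (hq.coprime_iff_not_dvd).2 h
  apply one_nonunit (A := A)
  rw [← Int.cast_one (R := Ω), ← hab, Int.cast_add, Int.cast_mul, Int.cast_mul,
    mul_comm, mul_comm (b : Ω)]
  exact add_mem (nonunit_mul h1 (int_mem' A a)) (nonunit_mul h2 (int_mem' A b))

theorem integ_mem (A : ValuationSubring Ω) {x : Ω} (hx : IsIntegral ℤ x) : x ∈ A := by
  obtain ⟨P, hP, hPx⟩ := hx
  refine mem_of_monic (hP.map (algebraMap ℤ Ω)) (fun i => ?_) (β := x) ?_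
  · rw [coeff_map]
    exact int_mem' A _
  · rw [eval_map]
    exact hPx

include Q in
theorem exists_place' {q : ℤ} (hq : Prime q) :
    ∃ u : ValuationSubring Ω, (q : Ω) ∈ u.nonunits := by
  let R := (Int.castRingHom Ω).range
  let I : Ideal R := Ideal.span {⟨(q : Ω), ⟨q, rfl⟩⟩}
  have hI : I ≠ ⊤ := by
    intro h
    rw [Ideal.span_singleton_eq_top] at h
    obtain ⟨⟨b, hb⟩, hb2⟩ := h.exists_right_inv
    obtain ⟨g, rfl⟩ := hb
    have h1 := congrArg Subtype.val hb2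
    have h2 : ((q * g : ℤ) : Ω) = ((1 : ℤ) : Ω) := by
      rw [Int.cast_mul, Int.cast_one]
      exact h1
    exact hq.not_isUnit (IsUnit.of_mul_eq_one _ (intCast_inj Q h2))
  obtain ⟨u, hu1, hu2⟩ := Ideal.image_subset_nonunits_valuationSubring I hI
  exact ⟨u, hu2 ⟨_, Ideal.subset_span rfl, rfl⟩⟩

/-- **The base change over the rational numbers.** -/
theorem nf_base [IsSepClosed Ω] (N : IntermediateField Q Ω) [FiniteDimensional Q N]
    (hN : N.fixingSubgroup.Normal) {m : ℤ} (hm : m ≠ 0) :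
    ∃ β : Ω, (∀ g : Gal(Ω/Q), ∃ a ∈ Q⟮β⟯.fixingSubgroup, ∃ b ∈ N.fixingSubgroup, g = a * b) ∧
      (∀ A : ValuationSubring Ω, (m : Ω) ∈ A.nonunits → ∀ σ : Gal(Ω/Q),
        σ • A = A → σ ∈ Q⟮β⟯.fixingSubgroup → σ ∈ N.fixingSubgroup) ∧
      (∀ A : ValuationSubring Ω, ∀ σ : Gal(Ω/Q), InInertia A σ → σ ∈ Q⟮β⟯.fixingSubgroup →
        σ ∈ N.fixingSubgroup) := by
  classical
  have hcast : ∀ {a : ℤ}, a ≠ 0 → (a : Q) ≠ 0 := by
    intro a ha h
    apply ha
    apply IsFractionRing.injective ℤ Q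
    rw [eq_intCast, h, map_zero]
  -- an integral generator
  obtain ⟨θ, hNθ, hθi⟩ : ∃ (θ : Ω),
      (∀ σ : Gal(Ω/Q), σ ∈ N.fixingSubgroup ↔ σ ∈ Q⟮θ⟯.fixingSubgroup) ∧ IsIntegral ℤ θ := by
    have hsepN : Algebra.IsSeparable Q N := inferInstance
    obtain ⟨α, hα⟩ := Field.exists_primitive_element Q N
    have halg : IsAlgebraic ℤ (α : N) := by
      have h1 : IsAlgebraic Q (α : N) := Algebra.IsAlgebraic.isAlgebraic α
      exact (IsFractionRing.isAlgebraic_iff ℤ Q N).2 h1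
    obtain ⟨y, hy0, hyi⟩ := halg.exists_integral_multiple
    have hy' : (y : Q) ≠ 0 := hcast hy0
    refine ⟨(α : Ω) * algebraMap Q Ω (y : Q), fun σ => ?_, ?_⟩
    · rw [fix_of_scale hy', mem_fix_adjoin]
      constructor
      · intro h
        exact (IntermediateField.mem_fixingSubgroup_iff _ _).1 h α α.2
      · intro h
        rw [IntermediateField.mem_fixingSubgroup_iff]
        intro x hx
        have h2 : (⟨x, hx⟩ : N) ∈ IntermediateField.adjoin Q {α} := by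
          rw [hα]
          exact IntermediateField.mem_top
        obtain ⟨r, s, hrs⟩ := (IntermediateField.mem_adjoin_simple_iff Q _).1 h2
        have h3 : x = aeval (α : Ω) r / aeval (α : Ω) s := by
          have h4 := congrArg N.val hrs
          rw [map_div₀, ← aeval_algHom_apply, ← aeval_algHom_apply] at h4
          exact h4
        have h4 : ∀ q : Polynomial Q, σ (aeval (α : Ω) q) = aeval (α : Ω) q := by
          intro q
          have h5 := aeval_algHom_apply (σ : Ω →ₐ[Q] Ω) (α : Ω) q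
          have h6 : (σ : Ω →ₐ[Q] Ω) (α : Ω) = α := h
          rw [h6] at h5
          exact h5.symm
        rw [h3, map_div₀, h4, h4]
    · have h1 : IsIntegral ℤ (algebraMap N Ω (y • α)) := hyi.algebraMap
      have h2 : algebraMap N Ω (y • α) = (α : Ω) * algebraMap Q Ω (y : Q) := by
        rw [map_intCast, zsmul_eq_mul, map_mul, map_intCast, mul_comm]
        rfl
      rwa [h2] at h1
  have hN' : (Q⟮θ⟯.fixingSubgroup).Normal := by
    have h1 : Q⟮θ⟯.fixingSubgroup = N.fixingSubgroup := by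
      ext σ
      exact (hNθ σ).symm
    rw [h1]
    exact hN
  have hconj : ∀ y ∈ conjs Q θ, IsIntegral ℤ y := by
    intro y hy
    obtain ⟨σ, rfl⟩ := mem_conjs.1 hy
    have h1 : IsIntegral ℤ ((σ : Ω →+* Ω) θ) := by
      have h2 := hθi.map ((σ : Ω →+* Ω).toIntAlgHom)
      exact h2
    exact h1
  -- the discriminant
  obtain ⟨d, hd0, hd⟩ : ∃ d : ℤ, d ≠ 0 ∧ (d : Ω) = dd Q θ := by
    obtain ⟨δ, hδ0, hδ⟩ := exists_dd (K := Q) (θ := θ)
    have h1 : IsIntegral ℤ δ := by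
      rw [← isIntegral_algebraMap_iff (algebraMap Q Ω).injective, hδ]
      unfold dd
      refine IsIntegral.prod _ fun p hp => ?_
      have hp' := Finset.mem_offDiag.1 (by convert hp)
      exact (hconj _ hp'.1).sub (hconj _ hp'.2.1)
    obtain ⟨d, rfl⟩ := (IsIntegrallyClosed.isIntegral_iff (R := ℤ) (K := Q)).1 h1
    refine ⟨d, ?_, ?_⟩
    · rintro rfl
      exact hδ0 (map_zero _)
    · rw [← hδ]
      simp
  have hmd : m * d ≠ 0 := mul_ne_zero hm hd0
  -- an auxiliary prime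
  obtain ⟨q, hq, hqM⟩ : ∃ q : ℤ, Prime q ∧ ¬ q ∣ m * d := by
    obtain ⟨p, hp1, hp2⟩ := Nat.exists_infinite_primes ((m * d).natAbs + 1)
    refine ⟨p, Nat.prime_iff_prime_int.1 hp2, fun h => ?_⟩
    have h1 : p ∣ (m * d).natAbs := Int.natCast_dvd.1 h
    have h2 := Nat.le_of_dvd (Int.natAbs_pos.2 hmd) h1
    omega
  have hq0 := hq.ne_zero
  have hqΩ : (q : Ω) ≠ 0 := intCast_ne Q hq0
  have hmdΩ : ((m * d : ℤ) : Ω) ≠ 0 := intCast_ne Q hmd
  set n := (conjs Q θ).card with hn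
  let r : Q := ((m * d : ℤ) : Q) ^ (n + 1) * ((q : Q) ^ 2)⁻¹
  let π : Q := (q : Q)
  have hqQ : (q : Q) ≠ 0 := hcast hq0
  have hrΩ : algebraMap Q Ω r = ((m * d : ℤ) : Ω) ^ (n + 1) * ((q : Ω) ^ 2)⁻¹ := by
    show algebraMap Q Ω (_ * _) = _
    rw [map_mul, map_inv₀, map_pow, map_pow, map_intCast, map_intCast]
  have hπΩ : algebraMap Q Ω π = (q : Ω) := map_intCast _ _
  have hr0 : r ≠ 0 := mul_ne_zero (pow_ne_zero _ (hcast hmd))
    (inv_ne_zero (pow_ne_zero _ hqQ))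
  have hπ0 : π ≠ 0 := hqQ
  let 𝓑 : Set (ValuationSubring Ω) := {A | ((m * d : ℤ) : Ω) ∈ A.nonunits}
  obtain ⟨u, huq⟩ := exists_place' Q (Ω := Ω) hq
  have hinvu : ∀ p : ℤ, ¬ q ∣ p → (p : Ω)⁻¹ ∈ u := by
    intro p hp
    apply inv_mem_of
    exact fun h => hp (dvd_of_nonunit' hq huq h)
  have hinvA : ∀ A ∈ 𝓑, (q : Ω)⁻¹ ∈ A := by
    intro A hA
    apply inv_mem_of
    exact fun h => hqM (dvd_of_nonunit' hq h hA)
  have hqd : ¬ q ∣ d := fun h => hqM (h.mul_left m)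
  obtain ⟨β, hβ1, hβ2⟩ := exists_base (K := Q) (Ω := Ω) (θ := θ) hN' 𝓑 u r π hr0 hπ0
    (fun A _ y hy => integ_mem A (hconj y hy)) (by
    intro A hA
    have hd' : dd Q θ ≠ 0 := dd_ne
    have h1 : algebraMap Q Ω r * (dd Q θ ^ (conjs Q θ).card)⁻¹ =
        ((m * d : ℤ) : Ω) * ((m : Ω) ^ n * ((q : Ω)⁻¹) ^ 2) := by
      rw [hrΩ, ← hd, ← hn]
      have h2 : (d : Ω) ≠ 0 := intCast_ne Q hd0
      push_cast
      field_simp
      ring
    rw [h1]
    exact nonunit_mul hA (mul_mem (pow_mem (int_mem' A m) _) (pow_mem (hinvA A hA) _)))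
    (fun A _ => by rw [hπΩ]; exact int_mem' A q)
    (fun y hy => integ_mem u (hconj y hy))
    (by rw [← hd]; exact hinvu d hqd)
    (by rw [hπΩ]; exact huq) (by
    intro z hz
    rw [hπΩ]
    obtain ⟨f, g, hrel, hfg⟩ := IsFractionRing.exists_reduced_fraction (A := ℤ) z
    have h1 : algebraMap Q Ω z * ((g : ℤ) : Ω) = (f : Ω) := by
      have h2 := IsLocalization.mk'_spec Q f g
      rw [hfg] at h2
      have h3 := congrArg (algebraMap Q Ω) h2
      rw [map_mul] at h3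
      simpa using h3
    have hg0 : ((g : ℤ) : Ω) ≠ 0 := intCast_ne Q (nonZeroDivisors.ne_zero g.2)
    have h2 : q ∣ f := by
      refine dvd_of_nonunit' hq huq ?_
      rw [← h1]
      exact nonunit_mul hz (int_mem' u _)
    have h3 : ¬ q ∣ (g : ℤ) := fun h => hq.not_isUnit (hrel h2 h)
    obtain ⟨f1, rfl⟩ := h2
    have h4 : algebraMap Q Ω z * (q : Ω)⁻¹ = (f1 : Ω) * ((g : ℤ) : Ω)⁻¹ := by
      have h5 : algebraMap Q Ω z = (q : Ω) * f1 * ((g : ℤ) : Ω)⁻¹ := by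
        rw [← Int.cast_mul, ← h1]
        field_simp
      rw [h5]
      field_simp
    rw [h4]
    exact mul_mem (int_mem' u _) (hinvu _ h3)) (by
    rw [map_mul, hrΩ, hπΩ]
    have h1 : (((m * d : ℤ) : Ω) ^ (n + 1) * ((q : Ω) ^ 2)⁻¹ * (q : Ω))⁻¹ =
        (q : Ω) * (((m * d : ℤ) : Ω)⁻¹) ^ (n + 1) := by
      rw [inv_pow]
      have h3 : ((m * d : ℤ) : Ω) ^ (n + 1) ≠ 0 := pow_ne_zero _ hmdΩ
      field_simp
    rw [h1]
    exact nonunit_mul huq (pow_mem (hinvu _ hqM) _))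
  refine ⟨β, fun g => ?_, fun A hA σ h1 h2 => ?_, fun A σ hσ h2 => ?_⟩
  · obtain ⟨a, ha, b, hb, hab⟩ := hβ1 g
    exact ⟨a, ha, b, (hNθ b).2 hb, hab⟩
  · refine (hNθ σ).2 (hβ2 A ?_ σ h1 h2)
    show ((m * d : ℤ) : Ω) ∈ A.nonunits
    rw [Int.cast_mul]
    exact nonunit_mul hA (int_mem' A d)
  · by_cases hA : A ∈ 𝓑
    · exact (hNθ σ).2 (hβ2 A hA σ hσ.1 h2)
    · have hA2 : ((m * d : ℤ) : Ω) ∉ A.nonunits := hA
      have hA3 : (dd Q θ)⁻¹ ∈ A := by
        have h3 := mul_mem (inv_mem_of hA2) (int_mem' A m)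
        have h4 : ((m * d : ℤ) : Ω)⁻¹ * (m : Ω) = (dd Q θ)⁻¹ := by
          have h5 : (m : Ω) ≠ 0 := intCast_ne Q hm
          rw [Int.cast_mul, hd]
          field_simp
        rwa [h4] at h3
      rw [hNθ, mem_fix_adjoin]
      by_contra hne
      have hθA : ∀ y ∈ conjs Q θ, y ∈ A := fun y hy => integ_mem A (hconj y hy)
      have h3 := hσ.2 θ (hθA θ (self_mem θ))
      have h4 := dd_div hθA (smul_mem_conjs σ (self_mem θ)) (self_mem θ) hne
      apply one_nonunit (A := A)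
      have h5 : σ θ - θ ≠ 0 := sub_ne_zero.2 hne
      have h6 : (1 : Ω) = (σ θ - θ) * ((dd Q θ)⁻¹ * (dd Q θ * (σ θ - θ)⁻¹)) := by
        have h7 : dd Q θ ≠ 0 := dd_ne
        field_simp
      rw [h6]
      exact nonunit_mul h3 (mul_mem hA3 h4)

/-- The rational numbers. -/
theorem hasBase_rat [IsSepClosed Ω] {m : ℤ} (hm : m ≠ 0) :
    HasBase Q Ω fun A => (m : Ω) ∈ A.nonunits := by
  intro F hF
  obtain ⟨N, hFN, hNfd, hNn⟩ := exists_normal F
  obtain ⟨β, hβ1, hβ2, hβ3⟩ := nf_base Q N hNn hm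
  exact ⟨N, β, hFN, hNfd, hNn, hβ1, hβ2, hβ3⟩

end nf

/-- Number fields. -/
theorem hasBase_nf {K Ω : Type*} [Field K] [NumberField K] [Field Ω] [Algebra K Ω]
    [IsAlgClosure K Ω] [IsGalois K Ω] {m : ℤ} (hm : m ≠ 0) :
    HasBase K Ω fun A => (m : Ω) ∈ A.nonunits := by
  have h0 : CharZero Ω := charZero_of_injective_algebraMap (algebraMap K Ω).injective
  have h6 : Algebra.IsAlgebraic K Ω := IsAlgClosure.isAlgebraic
  have h7 : IsAlgClosed Ω := IsAlgClosure.isAlgClosed K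
  let _ : Algebra ℚ Ω := DivisionRing.toRatAlgebra
  have h1 : IsScalarTower ℚ K Ω := inferInstance
  have h2 : Algebra.IsAlgebraic ℚ Ω := Algebra.IsAlgebraic.trans ℚ K Ω
  have h3 : IsAlgClosure ℚ Ω := ⟨inferInstance, h2⟩
  have h4 : IsGalois ℚ Ω := ⟨⟩
  exact (hasBase_rat ℚ hm).tower

end Run7.h375.SC
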