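import Pool.Agent.Run7.h375.SC.Birat

/-!
# The birational section conjecture: one conic
-/

set_option autoImplicit false

namespace Run7.h375.SC

open IntermediateField Module
open scoped Pointwise

/-- Automorphisms over `Ω` move every nonconstant element to every other one. -/
theorem exists_move {Ω N : Type} [Field Ω] [IsAlgClosed Ω] [Field N] [Algebra Ω N]
    [IsAlgClosed N] {y₀ y : N} (h₀ : y₀ ∉ Set.range (algebraMap Ω N))
    (h : y ∉ Set.range (algebraMap Ω N)) (hN₀ : Algebra.IsAlgebraic Ω⟮y₀⟯ N)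
    (hN : Algebra.IsAlgebraic Ω⟮y⟯ N) : ∃ τ : N ≃ₐ[Ω] N, τ y₀ = y := by
  have htr : ∀ z : N, z ∉ Set.range (algebraMap Ω N) → Transcendental Ω z := by
    intro z hz halg
    apply hz
    have h1 : IsIntegral Ω z := halg.isIntegral
    have h2 := IsAlgClosed.degree_eq_one_of_irreducible Ω (minpoly.irreducible h1)
    exact minpoly.mem_range_of_degree_eq_one Ω z h2
  let e : Ω⟮y₀⟯ ≃ₐ[Ω] Ω⟮y⟯ :=
    (RatFunc.algEquivOfTranscendental y₀ (htr y₀ h₀)).symm.trans (RatFunc.algEquivOfTranscendental y (htr y h))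
  have i1 : IsAlgClosure Ω⟮y₀⟯ N := ⟨inferInstance, hN₀⟩
  have i2 : IsAlgClosure Ω⟮y⟯ N := ⟨inferInstance, hN⟩
  let τ : N ≃+* N := IsAlgClosure.equivOfEquiv N N e.toRingEquiv
  have hτ : ∀ z : Ω⟮y₀⟯, τ (algebraMap Ω⟮y₀⟯ N z) = algebraMap Ω⟮y⟯ N (e z) := fun z =>
    IsAlgClosure.equivOfEquiv_algebraMap N N e.toRingEquiv z
  refine ⟨AlgEquiv.ofRingEquiv (f := τ) fun c => ?_, ?_⟩
  · have h1 := hτ (algebraMap Ω Ω⟮y₀⟯ c)
    rw [e.commutes] at h1
    exact h1
  · show τ y₀ = y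
    have h1 := hτ ⟨y₀, mem_adjoin_simple_self Ω y₀⟩
    have h2 : e ⟨y₀, mem_adjoin_simple_self Ω y₀⟩ = ⟨y, mem_adjoin_simple_self Ω y⟩ := by
      have h3 : RatFunc.algEquivOfTranscendental y₀ (htr y₀ h₀) RatFunc.X =
          ⟨y₀, mem_adjoin_simple_self Ω y₀⟩ :=
        Subtype.ext (RatFunc.algEquivOfTranscendental_X y₀ (htr y₀ h₀))
      have h4 : e ⟨y₀, mem_adjoin_simple_self Ω y₀⟩ =
          RatFunc.algEquivOfTranscendental y (htr y h) RatFunc.X := by
        show (RatFunc.algEquivOfTranscendental y (htr y h))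
          ((RatFunc.algEquivOfTranscendental y₀ (htr y₀ h₀)).symm
            ⟨y₀, mem_adjoin_simple_self Ω y₀⟩) = _
        rw [← h3, AlgEquiv.symm_apply_apply]
      rw [h4]
      exact Subtype.ext (RatFunc.algEquivOfTranscendental_X y (htr y h))
    rw [h2] at h1
    exact h1

variable {K Ω N : Type} [Field K] [Field Ω] [Algebra K Ω] [Field N] [Algebra K N] [Algebra Ω N]
  [IsScalarTower K Ω N]

/-- The conjugate of `γ` under `τ`. -/
noncomputable def mv {F₀ F : IntermediateField K N} (τ : N ≃ₐ[Ω] N)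
    (h : ∀ y : F₀, ∃ y' : F, τ (algebraMap F₀ N y) = algebraMap F N y') (γ : Gal(N/F)) :
    Gal(N/F₀) :=
  AlgEquiv.ofRingEquiv (f := (τ.toRingEquiv.trans γ.toRingEquiv).trans τ.symm.toRingEquiv)
    (fun y => by
      obtain ⟨y', hy⟩ := h y
      show τ.symm (γ (τ (algebraMap F₀ N y))) = algebraMap F₀ N y
      rw [hy, γ.commutes, ← hy, AlgEquiv.symm_apply_apply])

theorem mv_apply {F₀ F : IntermediateField K N} (τ : N ≃ₐ[Ω] N)
    (h : ∀ y : F₀, ∃ y' : F, τ (algebraMap F₀ N y) = algebraMap F N y') (γ : Gal(N/F)) (z : N) :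
    mv τ h γ z = τ.symm (γ (τ z)) := rfl

theorem stab_iff {F : IntermediateField K N} (γ : Gal(N/F)) (B : ValuationSubring N) :
    γ • B = B ↔ ∀ z, γ z ∈ B ↔ z ∈ B := by
  constructor
  · intro h z
    have h1 : γ z ∈ γ • B ↔ z ∈ B := ValuationSubring.smul_mem_pointwise_smul_iff
    rwa [h] at h1
  · intro h
    ext z
    rw [ValuationSubring.mem_pointwise_smul_iff_inv_smul_mem, ← h (γ⁻¹ • z)]
    have h1 : γ (γ⁻¹ • z) = z := smul_inv_smul γ z
    rw [h1]

theorem mem_co (τ : N ≃ₐ[Ω] N) (B : ValuationSubring N) (z : N) :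
    z ∈ B.comap (τ.symm : N →+* N) ↔ τ.symm z ∈ B := Iff.rfl

theorem givenBy_mv {F₀ F : IntermediateField K N} (τ : N ≃ₐ[Ω] N)
    {s : Gal(Ω/K) → Gal(N/F)} {s' : Gal(Ω/K) → Gal(N/F₀)} {M : IntermediateField K Ω}
    (h : ∀ a ∈ M.fixingSubgroup, ∀ z, s' a z = τ.symm (s a (τ z))) {B : ValuationSubring N}
    (hB : GivenBy M s' B) : GivenBy M s (B.comap (τ.symm : N →+* N)) := by
  refine ⟨⟨fun htop => hB.1.1 ?_, fun c => ?_⟩, fun a ha => ?_⟩
  · ext z
    refine ⟨fun _ => ValuationSubring.mem_top _, fun _ => ?_⟩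
    have h1 : τ z ∈ B.comap (τ.symm : N →+* N) := by
      rw [htop]
      exact ValuationSubring.mem_top _
    rw [mem_co, AlgEquiv.symm_apply_apply] at h1
    exact h1
  · rw [mem_co, AlgEquiv.commutes]
    exact hB.1.2 c
  · rw [stab_iff]
    intro z
    have h1 := (stab_iff (s' a) B).1 (hB.2 a ha) (τ.symm z)
    rw [h a ha, AlgEquiv.apply_symm_apply] at h1
    rw [mem_co, mem_co]
    exact h1

/-- The section conjecture is invariant under automorphisms over `Ω`. -/
theorem move {F₀ F : IntermediateField K N} (τ : N ≃ₐ[Ω] N)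
    (h1 : ∀ y : F₀, ∃ y' : F, τ (algebraMap F₀ N y) = algebraMap F N y')
    (h2 : ∀ y : F, ∃ y' : F₀, τ.symm (algebraMap F N y) = algebraMap F₀ N y')
    {L : IntermediateField K Ω} (h : SectionConjecture F₀ N L) : SectionConjecture F N L := by
  intro s hs hr
  obtain ⟨B, hB⟩ := h (fun a => mv τ h1 (s a)) (by
    refine ⟨fun y => ?_, fun a ha b hb => ?_, fun a ha c => ?_⟩
    · obtain ⟨M, h3, h4⟩ := hs.continuous (τ y)
      exact ⟨M, h3, fun a ha => by rw [mv_apply, h4 a ha, AlgEquiv.symm_apply_apply]⟩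
    · ext z
      rw [AlgEquiv.mul_apply, mv_apply, mv_apply, mv_apply, hs.hom a ha b hb, AlgEquiv.mul_apply,
        AlgEquiv.apply_symm_apply]
    · rw [mv_apply, AlgEquiv.commutes, hs.lifts a ha, AlgEquiv.commutes]) (by
    intro M hM hLM
    obtain ⟨h3, h4⟩ := hr M hM hLM
    refine ⟨fun γ hγ hcomm => ?_, fun B B' hB hB' => ?_⟩
    · have h5 := h3 (mv τ.symm h2 γ) (fun c => by
          rw [mv_apply, AlgEquiv.commutes, hγ, AlgEquiv.symm_symm, AlgEquiv.commutes])
        (fun a ha => by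
          ext z
          have h6 := congrArg (fun g : Gal(N/F₀) => g (τ.symm z)) (hcomm a ha)
          have h7 : γ (τ.symm (s a (τ (τ.symm z)))) = τ.symm (s a (τ (γ (τ.symm z)))) := h6
          rw [AlgEquiv.apply_symm_apply] at h7
          rw [AlgEquiv.mul_apply, AlgEquiv.mul_apply, mv_apply, mv_apply, AlgEquiv.symm_symm, h7,
            AlgEquiv.apply_symm_apply])
      ext z
      have h6 := congrArg (fun g : Gal(N/F) => g (τ z)) h5
      have h7 : τ (γ (τ.symm (τ z))) = τ z := h6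
      rw [AlgEquiv.symm_apply_apply] at h7
      exact τ.injective h7
    · have h5 := h4 _ _ (givenBy_mv τ (fun a _ z => mv_apply τ h1 (s a) z) hB)
        (givenBy_mv τ (fun a _ z => mv_apply τ h1 (s a) z) hB')
      ext z
      have h6 : τ z ∈ B.comap (τ.symm : N →+* N) ↔ τ z ∈ B'.comap (τ.symm : N →+* N) := by
        rw [h5]
      rw [mem_co, mem_co, AlgEquiv.symm_apply_apply] at h6
      exact h6)
  exact ⟨_, givenBy_mv τ (fun a _ z => mv_apply τ h1 (s a) z) hB⟩

/-- `τ` maps `K(y₀)` into `K(τ y₀)`. -/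
theorem map_adjoin (τ : N ≃ₐ[Ω] N) {y₀ y : N} (h : τ y₀ = y) (z : K⟮y₀⟯) :
    ∃ z' : K⟮y⟯, τ (algebraMap K⟮y₀⟯ N z) = algebraMap K⟮y⟯ N z' := by
  have h1 : ∀ c : K, τ (algebraMap K N c) = algebraMap K N c := fun c => by
    rw [IsScalarTower.algebraMap_apply K Ω N, τ.commutes]
  suffices h2 : ∀ z ∈ K⟮y₀⟯, τ z ∈ K⟮y⟯ from ⟨⟨τ z, h2 z z.2⟩, rfl⟩
  intro z hz
  induction hz using IntermediateField.adjoin_induction with
  | mem x hx =>
    rw [Set.mem_singleton_iff.1 hx, h]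
    exact mem_adjoin_simple_self K y
  | algebraMap x =>
    rw [h1]
    exact IntermediateField.algebraMap_mem _ x
  | add x y _ _ h1 h2 =>
    rw [map_add]
    exact add_mem h1 h2
  | inv x _ h1 =>
    rw [map_inv₀]
    exact inv_mem h1
  | mul x y _ _ h1 h2 =>
    rw [map_mul]
    exact mul_mem h1 h2

/-- `N` is algebraic over `Ω(y)`. -/
theorem alg_up {y : N} (h : Algebra.IsAlgebraic K⟮y⟯ N) : Algebra.IsAlgebraic Ω⟮y⟯ N := by
  have hmem : ∀ z ∈ K⟮y⟯, z ∈ Ω⟮y⟯ := by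
    intro z hz
    induction hz using IntermediateField.adjoin_induction with
    | mem x hx =>
      rw [Set.mem_singleton_iff.1 hx]
      exact mem_adjoin_simple_self Ω y
    | algebraMap x =>
      rw [IsScalarTower.algebraMap_apply K Ω N]
      exact IntermediateField.algebraMap_mem _ _
    | add x y _ _ h1 h2 => exact add_mem h1 h2
    | inv x _ h1 => exact inv_mem h1
    | mul x y _ _ h1 h2 => exact mul_mem h1 h2
  let f : K⟮y⟯ →+* Ω⟮y⟯ :=
    { toFun := fun z => ⟨z, hmem z z.2⟩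
      map_one' := rfl
      map_mul' := fun _ _ => rfl
      map_zero' := rfl
      map_add' := fun _ _ => rfl }
  refine ⟨fun z => ?_⟩
  obtain ⟨p, hp, hz⟩ := h.isAlgebraic z
  refine ⟨p.map f, ?_, ?_⟩
  · rwa [Ne, Polynomial.map_eq_zero_iff f.injective]
  · rw [Polynomial.aeval_def, Polynomial.eval₂_map]
    exact hz

/-- **The birational section conjecture and free quadratic steps on one conic.** -/
theorem birat_one [NumberField K] [IsAlgClosure K Ω] [IsAlgClosed N]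
    (hN : ∀ y : N, y ∉ Set.range (algebraMap Ω N) → Algebra.IsAlgebraic K⟮y⟯ N)
    (ρ : K →+* ℝ) (a b : N) (ha : a ∉ Set.range (algebraMap Ω N)) (hab : a * a + b * b = -1)
    (m : (Gal(Ω/K) → Gal(N/K⟮a, b⟯)) → ℤ) (hm : ∀ s, m s ≠ 0)
    (hm' : ∀ s t, SameGerm s t → m s = m t) :
    (∀ y : N, y ∉ Set.range (algebraMap Ω N) → ∀ L : IntermediateField K Ω,
      FiniteDimensional K L → SectionConjecture K⟮y⟯ N L) ↔
    ∀ (s : Gal(Ω/K) → Gal(N/K⟮a, b⟯)) (E L : IntermediateField K Ω),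
      IsFreeStep {2} (m s) E L → GivenOrExtends E L s := by
  have hac : IsAlgClosed Ω := IsAlgClosure.isAlgClosed K
  have hnor : Normal K Ω := IsAlgClosure.normal K Ω
  have hgal : IsGalois K Ω := by
    have h1 : Algebra.IsAlgebraic K Ω := IsAlgClosure.isAlgebraic
    exact ⟨⟩
  have hchN : CharZero N := charZero_of_injective_algebraMap (algebraMap K N).injective
  obtain ⟨i, hi⟩ := IsAlgClosed.exists_eq_mul_self (-1 : Ω)
  set j := algebraMap Ω N i with hj
  have hj2 : j * j = -1 := by rw [hj, ← map_mul, ← hi, map_neg, map_one]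
  have hj0 : j ≠ 0 := by
    intro h
    rw [h, zero_mul] at hj2
    exact (neg_ne_zero.2 (one_ne_zero (α := N))) hj2.symm
  have key : (∀ L : IntermediateField K Ω, FiniteDimensional K L →
      SectionConjecture K⟮a, b⟯ N L) ↔
      ∀ (s : Gal(Ω/K) → Gal(N/K⟮a, b⟯)) (E L : IntermediateField K Ω),
          IsFreeStep {2} (m s) E L → GivenOrExtends E L s := by
    have h1 : K⟮a⟯ ≤ K⟮a, b⟯ := IntermediateField.adjoin.mono _ _ _ (by simp)
    have h2 : IsGalois K⟮a, b⟯ N := gal_of_le h1 (hN a ha)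
    obtain ⟨w, hw⟩ := IsAlgClosed.exists_eq_mul_self (a + b * j)
    have ha' : a ∈ K⟮a, b⟯ := IntermediateField.subset_adjoin _ _ (by simp)
    have hb' : b ∈ K⟮a, b⟯ := IntermediateField.subset_adjoin _ _ (by simp)
    exact real_main (F := K⟮a, b⟯) ρ i hi.symm ⟨a, ha'⟩ ⟨b, hb'⟩ (Subtype.ext hab) w hw.symm
      m hm hm'
  have h1 : (a + b * j) * (a - b * j) = -1 := by linear_combination hab - b * b * hj2
  have h2 : a + b * j ≠ 0 := by
    intro h3
    rw [h3, zero_mul] at h1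
    exact (neg_ne_zero.2 (one_ne_zero (α := N))) h1.symm
  have h3 : a - b * j = -(a + b * j)⁻¹ := by
    field_simp
    linear_combination h1
  have hy : a + b * j ∉ Set.range (algebraMap Ω N) := by
    rintro ⟨c, hc⟩
    apply ha
    refine ⟨(c - c⁻¹) / 2, ?_⟩
    rw [map_div₀, map_sub, map_inv₀, hc, map_ofNat]
    have h4 : (a + b * j)⁻¹ = -(a - b * j) := by rw [h3, neg_neg]
    rw [h4]
    ring
  have h12 : ∀ γ : Gal(N/K⟮a + b * j⟯), γ (algebraMap Ω N i) = algebraMap Ω N i →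
      ∀ y : K⟮a, b⟯, γ (algebraMap K⟮a, b⟯ N y) = algebraMap K⟮a, b⟯ N y := by
    intro γ hγ
    have hyf : γ (a + b * j) = a + b * j :=
      γ.commutes ⟨a + b * j, mem_adjoin_simple_self K _⟩
    have h4 : γ (a - b * j) = a - b * j := by
      rw [h3, map_neg, map_inv₀, hyf]
    have ha1 : a = ((a + b * j) + (a - b * j)) / 2 := by ring
    have hb1 : b = ((a + b * j) - (a - b * j)) / (2 * j) := by field_simp; ring
    apply fix_adjoin
    rintro x (rfl | rfl)
    · have h5 := congrArg γ ha1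
      rw [map_div₀, map_add, hyf, h4, map_ofNat] at h5
      rw [h5]
      exact ha1.symm
    · have h5 := congrArg γ hb1
      rw [map_div₀, map_sub, hyf, h4, map_mul, map_ofNat, hγ] at h5
      rw [h5]
      exact hb1.symm
  have h21 : ∀ γ : Gal(N/K⟮a, b⟯), γ (algebraMap Ω N i) = algebraMap Ω N i →
      ∀ y : K⟮a + b * j⟯, γ (algebraMap K⟮a + b * j⟯ N y) = algebraMap K⟮a + b * j⟯ N y := by
    intro γ hγ
    apply fix_adjoin
    rintro x rfl
    have ha' : γ a = a := γ.commutes ⟨a, IntermediateField.subset_adjoin _ _ (by simp)⟩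
    have hb' : γ b = b := γ.commutes ⟨b, IntermediateField.subset_adjoin _ _ (by simp)⟩
    rw [map_add, map_mul, ha', hb', hγ]
  rw [← key]
  constructor
  · intro h
    exact forms (F₁ := K⟮a + b * j⟯) (F₂ := K⟮a, b⟯) i h12 h21 (h _ hy)
  · intro h y hyo L hL
    obtain ⟨τ, hτ⟩ := exists_move hy hyo (alg_up (hN _ hy)) (alg_up (hN _ hyo))
    refine move τ (map_adjoin τ hτ) (map_adjoin τ.symm ?_)
      (forms (F₁ := K⟮a, b⟯) (F₂ := K⟮a + b * j⟯) i h21 h12 h L hL)
    rw [← hτ, AlgEquiv.symm_apply_apply]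

end Run7.h375.SC
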