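import Pool.Agent.Run7.h375.SC.Thm

/-!
# Curves without real points
-/

set_option autoImplicit false

namespace Run7.h375.SC

open IntermediateField Module
open scoped Pointwise

/-- Complex conjugations. -/
theorem exists_conj {K Ω : Type} [Field K] [Field Ω] [Algebra K Ω] [Normal K Ω] (ρ : K →+* ℝ) :
    ∃ c : Gal(Ω/K), c * c = 1 ∧ ∀ i : Ω, i * i = -1 → c i = -i := by
  let _ : Algebra K ℂ := ((algebraMap ℝ ℂ).comp ρ).toAlgebra
  have halg : Algebra.IsAlgebraic K Ω := inferInstance
  let φ : Ω →ₐ[K] ℂ := IsAlgClosed.lift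
  let _ : Algebra Ω ℂ := φ.toRingHom.toAlgebra
  have hst : IsScalarTower K Ω ℂ := IsScalarTower.of_algebraMap_eq fun x => (φ.commutes x).symm
  let τ : ℂ ≃ₐ[K] ℂ :=
    { Complex.conjAe with commutes' := fun x => Complex.conj_ofReal (ρ x) }
  have hτ : ∀ z, τ z = (starRingEnd ℂ) z := fun z => rfl
  have hc : ∀ x : Ω, algebraMap Ω ℂ (τ.restrictNormal Ω x) = (starRingEnd ℂ) (algebraMap Ω ℂ x) :=
    fun x => AlgEquiv.restrictNormal_commutes τ Ω x
  refine ⟨τ.restrictNormal Ω, ?_, fun i hi => ?_⟩
  · ext x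
    apply (algebraMap Ω ℂ).injective
    rw [AlgEquiv.mul_apply, hc, hc, Complex.conj_conj]
    rfl
  · apply (algebraMap Ω ℂ).injective
    rw [hc, map_neg]
    have h1 : algebraMap Ω ℂ i * algebraMap Ω ℂ i = -1 := by
      rw [← map_mul, hi, map_neg, map_one]
    have h2 : algebraMap Ω ℂ i = Complex.I ∨ algebraMap Ω ℂ i = -Complex.I := by
      have h3 : (algebraMap Ω ℂ i - Complex.I) * (algebraMap Ω ℂ i + Complex.I) = 0 := by
        have h4 := Complex.I_mul_I
        linear_combination h1 - h4
      rcases mul_eq_zero.1 h3 with h4 | h4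
      · exact Or.inl (sub_eq_zero.1 h4)
      · exact Or.inr (eq_neg_of_add_eq_zero_left h4)
    rcases h2 with h2 | h2
    · rw [h2, Complex.conj_I]
    · rw [h2, map_neg, Complex.conj_I]

section

variable {K Ω F N : Type} [Field K] [Field Ω] [Algebra K Ω] [Field F] [Field N] [Algebra K F]
  [Algebra F N] [Algebra K N] [Algebra Ω N] [IsScalarTower K F N] [IsScalarTower K Ω N]

/-- There are no sections over real fields. -/
theorem no_section [CharZero N] {i : Ω} (hi : i * i = -1) {a b : F} (hab : a * a + b * b = -1)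
    {w : N} (hw : w * w = algebraMap F N a + algebraMap F N b * algebraMap Ω N i)
    {L : IntermediateField K Ω} {s : Gal(Ω/K) → Gal(N/F)} (hs : IsSection L s) {c : Gal(Ω/K)}
    (hcL : c ∈ L.fixingSubgroup) (hc2 : c * c = 1) (hci : c i = -i) : False := by
  set γ := s c with hγ
  have h1 : s 1 = 1 := by
    have h2 := hs.hom 1 (one_mem _) 1 (one_mem _)
    rw [mul_one] at h2
    exact left_eq_mul.1 h2
  have hγ2 : ∀ y, γ (γ y) = y := by
    intro y
    have h2 := hs.hom c hcL c hcL
    rw [hc2, h1] at h2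
    have h3 := congrArg (fun g : Gal(N/F) => g y) h2
    exact h3.symm
  have hγi : γ (algebraMap Ω N i) = -algebraMap Ω N i := by
    rw [hs.lifts c hcL i, hci, map_neg]
  set j := algebraMap Ω N i with hj
  have hj2 : j * j = -1 := by rw [hj, ← map_mul, hi, map_neg, map_one]
  have hab' : algebraMap F N a * algebraMap F N a + algebraMap F N b * algebraMap F N b = -1 := by
    rw [← map_mul, ← map_mul, ← map_add, hab, map_neg, map_one]
  have hγw : γ w * γ w = algebraMap F N a - algebraMap F N b * j := by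
    rw [← map_mul, hw, map_add, map_mul, γ.commutes, γ.commutes, hγi]
    ring
  have h2 : (w * γ w) * (w * γ w) = -1 := by
    have h3 : (w * γ w) * (w * γ w) = (w * w) * (γ w * γ w) := by ring
    rw [h3, hw, hγw]
    linear_combination hab' - algebraMap F N b * algebraMap F N b * hj2
  have h3 : w * γ w = j ∨ w * γ w = -j := by
    have h4 : (w * γ w - j) * (w * γ w + j) = 0 := by linear_combination h2 - hj2
    rcases mul_eq_zero.1 h4 with h5 | h5
    · exact Or.inl (sub_eq_zero.1 h5)
    · exact Or.inr (eq_neg_of_add_eq_zero_left h5)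
  have h4 : γ (w * γ w) = w * γ w := by
    rw [map_mul, hγ2, mul_comm]
  have hj0 : j ≠ 0 := by
    intro h
    rw [h, zero_mul] at hj2
    exact (neg_ne_zero.2 (one_ne_zero (α := N))) hj2.symm
  have h5 : j = -j := by
    rcases h3 with h3 | h3
    · rw [h3, hγi] at h4
      exact h4.symm
    · rw [h3, map_neg, hγi] at h4
      rw [neg_neg] at h4
      exact h4
  have h6 : (2 : N) * j = 0 := by linear_combination h5
  exact (mul_ne_zero two_ne_zero hj0) h6

end

open Run7.h375.SH in
/-- **Curves without real points: quadratic free steps.** -/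
theorem real_main {K Ω F N : Type} [Field K] [NumberField K] [Field Ω] [Algebra K Ω]
    [IsAlgClosure K Ω] [Field F] [Field N] [Algebra K F] [Algebra F N] [IsGalois F N]
    [Algebra K N] [Algebra Ω N] [IsScalarTower K F N] [IsScalarTower K Ω N]
    (ρ : K →+* ℝ) (i : Ω) (hi : i * i = -1) (a b : F) (hab : a * a + b * b = -1)
    (w : N) (hw : w * w = algebraMap F N a + algebraMap F N b * algebraMap Ω N i)
    (m : (Gal(Ω/K) → Gal(N/F)) → ℤ) (hm : ∀ s, m s ≠ 0)
    (hm' : ∀ s t, SameGerm s t → m s = m t) :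
    (∀ L : IntermediateField K Ω, FiniteDimensional K L → SectionConjecture F N L) ↔
      ∀ (s : Gal(Ω/K) → Gal(N/F)) (E L : IntermediateField K Ω),
        IsFreeStep {2} (m s) E L → GivenOrExtends E L s := by
  have hnor : Normal K Ω := IsAlgClosure.normal K Ω
  have hgal : IsGalois K Ω := by
    have h1 : Algebra.IsAlgebraic K Ω := IsAlgClosure.isAlgebraic
    exact ⟨⟩
  have hchN : CharZero N := charZero_of_injective_algebraMap (algebraMap K N).injective
  rw [nf_main (⊥ : IntermediateField K Ω) {2} m hm hm']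
  constructor
  · rintro ⟨-, h⟩ s E L hf
    exact h s E L bot_le hf
  · intro h
    refine ⟨fun K' hK' s hs _ => ?_, fun s E L _ hf => h s E L hf⟩
    exfalso
    obtain ⟨c, hc2, hci⟩ := exists_conj (Ω := Ω) ρ
    refine no_section hi hab hw hs ?_ hc2 (hci i hi)
    -- the degree of `K'` is odd
    have hfd := hK'.finite
    obtain ⟨d, hd, hdeg⟩ := hK'.degree
    have hodd : ¬ 2 ∣ d := hd 2 Nat.prime_two rfl
    have hidx : K'.fixingSubgroup.index = d := by
      rw [← finrank_eq_fixingSubgroup_index, hdeg, IntermediateField.finrank_bot, mul_one]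
    have hn : K'.fixingSubgroup.Normal := by
      refine ⟨fun x hx g => ?_⟩
      rw [IntermediateField.mem_fixingSubgroup_iff] at hx ⊢
      intro y hy
      have hg : g⁻¹ y ∈ K' := hK'.galois g⁻¹ (by
        rw [IntermediateField.fixingSubgroup_bot]
        exact Subgroup.mem_top _) y hy
      show g (x (g⁻¹ y)) = y
      rw [hx _ hg, ← AlgEquiv.mul_apply, mul_inv_cancel, AlgEquiv.one_apply]
    obtain ⟨j, hj⟩ := Nat.odd_iff.2 (Nat.two_dvd_ne_zero.1 hodd)
    have hfi : K'.fixingSubgroup.FiniteIndex := ⟨index_ne K'⟩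
    have h1 := K'.fixingSubgroup.pow_index_mem c
    rw [hidx, hj, pow_succ, pow_mul, pow_two, hc2, one_pow, one_mul] at h1
    exact h1

end Run7.h375.SC
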