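import Pool.Agent.Run7.h375.SC.NF
import Pool.Agent.Run7.h375.SC.Grp
import Pool.Agent.Run7.h375.SC.Defs

/-!
# The section conjecture over all extensions
-/

set_option autoImplicit false

namespace Run7.h375.SC

open IntermediateField Module
open scoped Pointwise

section bridge

open Run7.h375.SH

variable {K Ω F N : Type} [Field K] [Field Ω] [Algebra K Ω] [Field F] [Field N] [Algebra K F]
  [Algebra F N] [Algebra K N] [Algebra Ω N] [IsScalarTower K F N] [IsScalarTower K Ω N]
  [IsGalois K Ω]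

set_option linter.unusedSectionVars false

/-- The restriction to `Ω`. -/
noncomputable def res : Gal(N/F) →* Gal(Ω/K) :=
  (AlgEquiv.restrictNormalHom Ω).comp (AlgEquiv.restrictScalarsHom K)

theorem res_apply (γ : Gal(N/F)) (c : Ω) :
    algebraMap Ω N (res (K := K) γ c) = γ (algebraMap Ω N c) :=
  AlgEquiv.restrictNormal_commutes (γ.restrictScalars K) Ω c

theorem res_eq {γ : Gal(N/F)} {g : Gal(Ω/K)} :
    res γ = g ↔ ∀ c, γ (algebraMap Ω N c) = algebraMap Ω N (g c) := by
  constructor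
  · rintro rfl c
    exact (res_apply γ c).symm
  · intro h
    ext c
    apply (algebraMap Ω N).injective
    rw [res_apply, h]

/-- The places. -/
def places (Ω N : Type) [Field Ω] [Field N] [Algebra Ω N] : Set (ValuationSubring N) :=
  {B | IsPlace Ω B}

include K in
theorem place_smul (γ : Gal(N/F)) {B : ValuationSubring N} (hB : IsPlace Ω B) :
    IsPlace Ω (γ • B) := by
  refine ⟨fun h => hB.1 ?_, fun c => ?_⟩
  · rw [eq_top_iff]
    intro x _
    have h1 : γ x ∈ γ • B := by
      rw [h]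
      exact ValuationSubring.mem_top _
    rw [ValuationSubring.mem_pointwise_smul_iff_inv_smul_mem] at h1
    have h2 : γ⁻¹ • γ x = x := by
      show (γ⁻¹ * γ) x = x
      rw [inv_mul_cancel]
      rfl
    rwa [h2] at h1
  · rw [ValuationSubring.mem_pointwise_smul_iff_inv_smul_mem]
    have h1 : γ⁻¹ • algebraMap Ω N c = algebraMap Ω N (res (K := K) γ⁻¹ c) :=
      (res_apply γ⁻¹ c).symm
    rw [h1]
    exact hB.2 _

variable {L : IntermediateField K Ω} {s : Gal(Ω/K) → Gal(N/F)}

/-- Continuity. -/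
def Cts (s : Gal(Ω/K) → Gal(N/F)) : Prop :=
  ∀ y : N, ∃ M : IntermediateField K Ω, FiniteDimensional K M ∧ ∀ a ∈ M.fixingSubgroup, s a y = y

theorem Cts.congr [FiniteDimensional K L] (h : Cts s) {t : Gal(Ω/K) → Gal(N/F)}
    (he : ∀ a ∈ L.fixingSubgroup, t a = s a) : Cts t := by
  intro y
  obtain ⟨M, hM, h1⟩ := h y
  refine ⟨M ⊔ L, inferInstance, fun a ha => ?_⟩
  rw [he a (fixingSubgroup_le le_sup_right ha)]
  exact h1 a (fixingSubgroup_le le_sup_left ha)

theorem section_iff : IsSection L s ↔ Sec Cts res L.fixingSubgroup s :=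
  ⟨fun h => ⟨h.continuous, h.hom, fun a ha => res_eq.2 (h.lifts a ha)⟩,
    fun h => ⟨h.cont, h.mul, fun a ha => res_eq.1 (h.lift a ha)⟩⟩

theorem given_iff : (∃ B, GivenBy L s B) ↔ ∃ x ∈ places Ω N, Fix L.fixingSubgroup s x :=
  ⟨fun ⟨B, h1, h2⟩ => ⟨B, h1, h2⟩, fun ⟨B, h1, h2⟩ => ⟨B, h1, h2⟩⟩

theorem rigid_iff [FiniteDimensional K L] :
    IsRigid L s ↔ Rig res (places Ω N) L.fixingSubgroup s := by
  constructor
  · intro h W hW hWo
    obtain ⟨M, hM, hMW⟩ := exists_fd_of_open hWo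
    have hfd : FiniteDimensional K (M ⊔ L : IntermediateField K Ω) := inferInstance
    have hle : (M ⊔ L).fixingSubgroup ≤ W := (fixingSubgroup_le le_sup_left).trans hMW
    obtain ⟨h1, h2⟩ := h (M ⊔ L) hfd le_sup_right
    exact ⟨fun γ hγ hc => h1 γ (res_eq.1 hγ) fun a ha => hc a (hle ha),
      fun x hx y hy h3 h4 => h2 x y ⟨hx, fun a ha => h3 a (hle ha)⟩ ⟨hy, fun a ha => h4 a (hle ha)⟩⟩
  · intro h M hM hLM
    obtain ⟨h1, h2⟩ := h M.fixingSubgroup (fixingSubgroup_le hLM) M.fixingSubgroup_isOpen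
    exact ⟨fun γ hγ hc => h1 γ (res_eq.2 hγ) hc, fun B B' h3 h4 => h2 B h3.1 B' h4.1 h3.2 h4.2⟩

end bridge

open Run7.h375.SH in
/-- **The section conjecture over all extensions and free steps.** -/
theorem nf_main {K Ω F N : Type} [Field K] [NumberField K] [Field Ω] [Algebra K Ω]
    [IsAlgClosure K Ω] [Field F] [Field N] [Algebra K F] [Algebra F N] [IsGalois F N]
    [Algebra K N] [Algebra Ω N] [IsScalarTower K F N] [IsScalarTower K Ω N]
    (K₀ : IntermediateField K Ω) [FiniteDimensional K K₀] (R : Set ℕ)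
    (m : (Gal(Ω/K) → Gal(N/F)) → ℤ) (hm : ∀ s, m s ≠ 0)
    (hm' : ∀ s t, SameGerm s t → m s = m t) :
    (∀ L : IntermediateField K Ω, FiniteDimensional K L → SectionConjecture F N L) ↔
      (∀ K' : IntermediateField K Ω,
        IsGaloisDegree (fun d => ∀ r : ℕ, r.Prime → r ∈ R → ¬ r ∣ d) K₀ K' →
        SectionConjecture F N K') ∧
      ∀ (s : Gal(Ω/K) → Gal(N/F)) (E L : IntermediateField K Ω), K₀ ≤ E →
        IsFreeStep R (m s) E L → GivenOrExtends E L s := by
  have hgal : IsGalois K Ω := by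
    have h1 : Algebra.IsAlgebraic K Ω := IsAlgClosure.isAlgebraic
    have h2 : Normal K Ω := IsAlgClosure.normal K Ω
    exact ⟨⟩
  have hsc : IsSepClosed Ω := by
    have h1 : IsAlgClosed Ω := IsAlgClosure.isAlgClosed K
    infer_instance
  constructor
  · intro h
    refine ⟨fun K' hK' => h K' hK'.finite, fun s E L _ hf hs hr => Or.inl ?_⟩
    exact h L hf.galois.finite s hs hr
  · rintro ⟨h1, h2⟩ L hL s hs hr
    have hbase := hasBase_nf (K := K) (Ω := Ω) (hm s)
    have hfd : FiniteDimensional K (L ⊔ K₀ : IntermediateField K Ω) := inferInstance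
    obtain ⟨N', β, hFN, hNfd, hNn, hβ1, hβ2, hβ3⟩ := hbase (L ⊔ K₀) hfd
    have hβfd := fd_adjoin (K := K) β
    have hfd2 : FiniteDimensional K (N' ⊔ K⟮β⟯ ⊔ K₀ : IntermediateField K Ω) := inferInstance
    obtain ⟨M, hM1, hM2, hM3⟩ := exists_normal (N' ⊔ K⟮β⟯ ⊔ K₀ : IntermediateField K Ω)
    have hLN : L ≤ N' := le_sup_left.trans hFN
    have hKN : K₀ ≤ N' := le_sup_right.trans hFN
    have hopen : ∀ {A B : Subgroup Gal(Ω/K)}, IsOpen (A : Set Gal(Ω/K)) →
        IsOpen (B : Set Gal(Ω/K)) → IsOpen ((A ⊓ B : Subgroup Gal(Ω/K)) : Set Gal(Ω/K)) := by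
      intro A B hA hB
      rw [Subgroup.coe_inf]
      exact hA.inter hB
    have hKo : IsOpen ((K⟮β⟯.fixingSubgroup ⊓ K₀.fixingSubgroup : Subgroup Gal(Ω/K)) :
        Set Gal(Ω/K)) := hopen K⟮β⟯.fixingSubgroup_isOpen K₀.fixingSubgroup_isOpen
    have hK0 : (K⟮β⟯.fixingSubgroup ⊓ K₀.fixingSubgroup).index ≠ 0 :=
      Subgroup.index_inf_ne_zero (index_ne _) (index_ne _)
    have hLo := hopen N'.fixingSubgroup_isOpen hKo
    have hL0 : (N'.fixingSubgroup ⊓ (K⟮β⟯.fixingSubgroup ⊓ K₀.fixingSubgroup)).index ≠ 0 :=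
      Subgroup.index_inf_ne_zero (index_ne _) hK0
    have hi : ∀ {A B : Subgroup Gal(Ω/K)}, A.index ≠ 0 → A ≤ B → B.index ≠ 0 := by
      intro A B hA hAB h
      have h3 := Subgroup.index_dvd_of_le hAB
      rw [h] at h3
      exact hA (Nat.eq_zero_of_zero_dvd h3)
    have hmem : ∀ (H : Subgroup Gal(Ω/K)) (x : Ω), x ∈ fixedField H ↔ ∀ w ∈ H, w x = x :=
      fun H x => mem_fixedField_iff _ _
    -- Galois extensions
    have hnorm : ∀ {H1 H2 : Subgroup Gal(Ω/K)}, (∀ h ∈ H1, ∀ x ∈ H2, h * x * h⁻¹ ∈ H2) →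
        ∀ σ ∈ H1, ∀ x ∈ fixedField H2, σ x ∈ fixedField H2 := by
      intro H1 H2 hn σ hσ x hx
      rw [hmem] at hx ⊢
      intro w hw
      have h3 := hn σ⁻¹ (H1.inv_mem hσ) w hw
      rw [inv_inv] at h3
      have h4 := hx _ h3
      have h5 : σ ((σ⁻¹ * w * σ) x) = w (σ x) := by
        rw [← AlgEquiv.mul_apply, ← AlgEquiv.mul_apply]
        congr 1
        group
      rw [← h5, h4]
    rw [given_iff]
    refine main' (R := R) (G₀ := K₀.fixingSubgroup) hNn N'.fixingSubgroup_isOpen (index_ne N') hKo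
      hK0 ?_ (fixingSubgroup_le hLN) (fixingSubgroup_le hKN) L.fixingSubgroup_isOpen hM3
      M.fixingSubgroup_isOpen ?_ ?_ ?_ (fun γ x hx => place_smul (K := K) γ hx)
      (fun t ht => Cts.congr hs.continuous ht)
      (section_iff.1 hs) (rigid_iff.1 hr)
    · intro g hg
      obtain ⟨a, ha, b, hb, hab⟩ := hβ1 g
      refine ⟨a, ⟨ha, ?_⟩, b, hb, hab⟩
      have h3 : a = g * b⁻¹ := by rw [hab]; group
      show a ∈ K₀.fixingSubgroup
      rw [h3]
      exact K₀.fixingSubgroup.mul_mem hg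
        (K₀.fixingSubgroup.inv_mem (fixingSubgroup_le hKN hb))
    · exact le_inf (fixingSubgroup_le ((le_sup_left.trans le_sup_left).trans hM1))
        (le_inf (fixingSubgroup_le ((le_sup_right.trans le_sup_left).trans hM1))
          (fixingSubgroup_le (le_sup_right.trans hM1)))
    · intro H1 H2 hLH hle hH1 hn hpr hprR t htf ht1 ht2
      have ho2 : IsOpen (H2 : Set Gal(Ω/K)) := Subgroup.isOpen_mono hLH hLo
      have ho1 : IsOpen (H1 : Set Gal(Ω/K)) := Subgroup.isOpen_mono hle ho2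
      have e1 := fix_fixed' ho1
      have e2 := fix_fixed' ho2
      have hfd2 := finite_fixed' ho2 (hi hL0 hLH)
      have hmt : m t = m s := by
        refine hm' t s ?_
        obtain ⟨W, hW1, hW2⟩ := exists_fd_of_open hLo
        exact ⟨W, hW1, fun a ha => htf a (hW2 ha)⟩
      have h3 := h2 t (fixedField H1) (fixedField H2) (by
        rw [← InfiniteGalois.fixedField_fixingSubgroup K₀]
        exact fixedField_antitone (hH1.trans inf_le_right)) (by
        rw [hmt]
        refine ⟨⟨hfd2, fixedField_antitone hle, ?_, ?_⟩, ?_, ?_⟩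
        · rw [e1]
          exact hnorm hn
        · refine ⟨_, ⟨hpr, hprR⟩, ?_⟩
          rw [finrank_eq_fixingSubgroup_index, finrank_eq_fixingSubgroup_index, e1, e2]
          exact (Subgroup.relIndex_mul_index hle).symm
        · intro B σ hσ hσB hσi
          rw [e1] at hσ
          rw [e2]
          exact hLH ⟨hβ3 B σ ⟨hσB, hσi⟩ (hH1 hσ).1, hH1 hσ⟩
        · intro B hB σ hσ hσB
          rw [e1] at hσ
          rw [e2]
          exact hLH ⟨hβ2 B hB σ hσB (hH1 hσ).1, hH1 hσ⟩) (section_iff.2 (by rwa [e2]))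
          (rigid_iff.2 (by rwa [e2]))
      rcases h3 with h3 | ⟨t', h3, h4⟩
      · left
        have h5 := given_iff.1 h3
        rwa [e2] at h5
      · right
        have h5 := section_iff.1 h3
        rw [e1] at h5
        rw [e2] at h4
        exact ⟨t', h5, h4⟩
    · intro t ht1 ht2
      have hle : N'.fixingSubgroup ≤ gen R N'.fixingSubgroup K₀.fixingSubgroup :=
        le_gen (fixingSubgroup_le hKN)
      have ho : IsOpen ((gen R N'.fixingSubgroup K₀.fixingSubgroup : Subgroup Gal(Ω/K)) :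
          Set Gal(Ω/K)) := Subgroup.isOpen_mono hle N'.fixingSubgroup_isOpen
      have e1 := fix_fixed' ho
      have hfd3 := finite_fixed' ho (hi (index_ne N') hle)
      have h3 := h1 (fixedField (gen R N'.fixingSubgroup K₀.fixingSubgroup)) (by
        refine ⟨hfd3, ?_, ?_, ?_⟩
        · exact (InfiniteGalois.fixedField_fixingSubgroup K₀).symm.le.trans
            (fixedField_antitone gen_le)
        · exact hnorm fun h hh x hx => gen_conj hNn hh hx
        · refine ⟨_, fun r hr hrR => gen_index hNn (fixingSubgroup_le hKN) (index_ne N') hr hrR, ?_⟩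
          rw [finrank_eq_fixingSubgroup_index, finrank_eq_fixingSubgroup_index, e1]
          exact (Subgroup.relIndex_mul_index gen_le).symm) t (section_iff.2 (by rwa [e1]))
        (rigid_iff.2 (by rwa [e1]))
      have h5 := given_iff.1 h3
      rwa [e1] at h5

end Run7.h375.SC
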